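import Pool.Agent.KIR.S4b.Stm

/-! KIR section S4b, piece CNT (helper98) -/

set_option autoImplicit false

namespace Pool.Agent.KIR.S4b

theorem cnt_inner (n i : ℕ) (hi : i < n) :
    (∑ j : Fin n, if i + (j : ℕ) + 1 < n then 1 else 0) = n - 1 - i := by
  rw [Finset.sum_boole]
  have h : (Finset.univ.filter (fun j : Fin n => i + (j : ℕ) + 1 < n)) =
      Finset.univ.filter (fun j : Fin n => (j : ℕ) < n - 1 - i) := by
    ext j
    simp only [Finset.mem_filter, Finset.mem_univ, true_and]
    omega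
  rw [h]
  have h2 : (Finset.univ.filter (fun j : Fin n => (j : ℕ) < n - 1 - i)).card = min n (n - 1 - i) := Fin.card_filter_val_lt
  simp only [Nat.cast_id]
  rw [h2]
  omega

theorem t_CNT : S_CNT := by
  intro n
  rw [Finset.card_filter, Fintype.sum_prod_type]
  have h : ∀ i : Fin n, (∑ j : Fin (n + n), if
      (((i, j) : Fin n × Fin (n + n)).2 : ℕ) < n ∧ (((i, j) : Fin n × Fin (n + n)).1 : ℕ) + (((i, j) : Fin n × Fin (n + n)).2 : ℕ) + 1 < n ∨
      n ≤ (((i, j) : Fin n × Fin (n + n)).2 : ℕ) ∧ (((i, j) : Fin n × Fin (n + n)).1 : ℕ) + (((i, j) : Fin n × Fin (n + n)).2 : ℕ) + 1 < n + n then 1 else 0) =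
      2 * (n - 1 - (i : ℕ)) := by
    intro i
    rw [Fin.sum_univ_add, two_mul]
    congr 1
    · rw [← cnt_inner n i i.2]
      refine Finset.sum_congr rfl fun j _ => ?_
      have hj := j.2
      simp only [Fin.val_castAdd]
      by_cases hc : (i : ℕ) + j + 1 < n
      · rw [if_pos (Or.inl ⟨hj, hc⟩), if_pos hc]
      · rw [if_neg (by omega), if_neg hc]
    · rw [← cnt_inner n i i.2]
      refine Finset.sum_congr rfl fun j _ => ?_
      have hj := j.2
      simp only [Fin.val_natAdd]
      by_cases hc : (i : ℕ) + j + 1 < n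
      · rw [if_pos (by omega), if_pos hc]
      · rw [if_neg (by omega), if_neg hc]
  rw [Finset.sum_congr rfl fun i _ => h i, ← Finset.mul_sum,
    Fin.sum_univ_eq_sum_range (fun i => n - 1 - i) n, Finset.sum_range_reflect (fun i => i) n,
    mul_comm, Finset.sum_range_id_mul_two]

end Pool.Agent.KIR.S4b
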