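import Pool.Agent.KIR.S4b.Stm

/-!
# PROJECT KIR, section S4b, piece HSV (helper72): the class of a linear ideal
-/

set_option autoImplicit false

namespace Pool.Agent.KIR.S4b

open MvPolynomial Filter Topology Pool.Agent.KIR

theorem t_HSV (h : S1a.S_VAR) : S_HSV := by
  intro σ _ _ w hw Z
  have key : Tendsto (G Z.card w (Ideal.span (X '' (Z : Set σ)) : Ideal (S σ))) (𝓝[<] 1)
      (𝓝 (∏ s ∈ Z, (w s : ℝ))) := by
    have h1 : Tendsto (fun q : ℝ => (∏ s, (w s : ℝ)) *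
        ∏ s ∈ Zᶜ, (∑ i ∈ Finset.range (w s), q ^ i)⁻¹) (𝓝[<] 1)
        (𝓝 ((∏ s, (w s : ℝ)) * ∏ s ∈ Zᶜ, (∑ i ∈ Finset.range (w s), (1 : ℝ) ^ i)⁻¹)) := by
      refine Tendsto.mul tendsto_const_nhds (tendsto_finset_prod _ fun s _ => ?_)
      refine Tendsto.inv₀ ?_ ?_
      · have hc : Continuous (fun q : ℝ => ∑ i ∈ Finset.range (w s), q ^ i) := by fun_prop
        exact (hc.tendsto 1).mono_left nhdsWithin_le_nhds
      · simp only [one_pow, Finset.sum_const, Finset.card_range, nsmul_eq_mul, mul_one]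
        exact_mod_cast (hw s).ne'
    have h2 : (∏ s, (w s : ℝ)) * ∏ s ∈ Zᶜ, (∑ i ∈ Finset.range (w s), (1 : ℝ) ^ i)⁻¹ =
        ∏ s ∈ Z, (w s : ℝ) := by
      rw [← Finset.prod_mul_prod_compl Z, mul_assoc, ← Finset.prod_mul_distrib]
      have e : ∏ s ∈ Zᶜ, ((w s : ℝ) * (∑ i ∈ Finset.range (w s), (1 : ℝ) ^ i)⁻¹) = 1 := by
        refine Finset.prod_eq_one fun s _ => ?_
        simp only [one_pow, Finset.sum_const, Finset.card_range, nsmul_eq_mul, mul_one]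
        exact mul_inv_cancel₀ (by exact_mod_cast (hw s).ne')
      rw [e, mul_one]
    rw [h2] at h1
    refine h1.congr' ?_
    filter_upwards [Ioo_mem_nhdsLT (by norm_num : (0 : ℝ) < 1)] with q hq
    obtain ⟨hq0, hq1⟩ := hq
    have hq' : (1 - q) ≠ 0 := by linarith
    have hv := h σ w hw Z q hq0 hq1
    have hpos : ∀ s : σ, (1 - q ^ (w s)) ≠ 0 := fun s => by
      have : q ^ (w s) < 1 := pow_lt_one₀ hq0.le hq1 (hw s).ne'
      linarith
    have hP : (∏ s ∈ Zᶜ, (1 - q ^ (w s))) ≠ 0 := Finset.prod_ne_zero_iff.2 fun s _ => hpos s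
    have hHs : Hs w (Ideal.span (X '' (Z : Set σ)) : Ideal (S σ)) q =
        (∏ s ∈ Zᶜ, (1 - q ^ (w s)))⁻¹ := eq_inv_of_mul_eq_one_left hv
    have hcard : Fintype.card σ = Z.card + Zᶜ.card := (Finset.card_add_card_compl Z).symm
    unfold G
    rw [hHs, hcard, pow_add]
    have e1 : ∏ s ∈ Zᶜ, (∑ i ∈ Finset.range (w s), q ^ i)⁻¹ =
        (1 - q) ^ (Zᶜ.card) * (∏ s ∈ Zᶜ, (1 - q ^ (w s)))⁻¹ := by
      rw [← Finset.prod_const, ← Finset.prod_inv_distrib, ← Finset.prod_mul_distrib]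
      refine Finset.prod_congr rfl fun s _ => ?_
      have hg := mul_neg_geom_sum q (w s)
      have hs := hpos s
      rw [← hg] at hs ⊢
      have hs2 : (∑ i ∈ Finset.range (w s), q ^ i) ≠ 0 := right_ne_zero_of_mul hs
      field_simp
    rw [e1]
    have hpz : (1 - q) ^ Z.card ≠ 0 := pow_ne_zero _ hq'
    field_simp
  exact ⟨⟨_, key⟩, key.limUnder_eq⟩

end Pool.Agent.KIR.S4b
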