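import Pool.Agent.KIR.S4b.Stm
/-!
# KIR, section S4b, piece LIN (helper84): linear ideals as kernels
-/
set_option autoImplicit false
namespace Pool.Agent.KIR.S4b
open MvPolynomial Filter Topology Pool.Agent.KIR

theorem t_LIN : S_LIN := by
  intro σ τ _ Z e he
  set I : Ideal (S σ) := Ideal.span (X '' (Z : Set σ)) with hI
  apply le_antisymm
  · -- `θ f - f ∈ I`
    intro f hf
    set θ : S σ →ₐ[ℂ] S σ := aeval (fun s => if s ∈ Z then 0 else X s) with hθ
    have h1 : (Ideal.Quotient.mkₐ ℂ I).comp θ = Ideal.Quotient.mkₐ ℂ I := by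
      apply MvPolynomial.algHom_ext
      intro s
      rw [AlgHom.comp_apply, hθ, aeval_X]
      split_ifs with h
      · rw [map_zero]
        symm
        rw [Ideal.Quotient.mkₐ_eq_mk, Ideal.Quotient.eq_zero_iff_mem]
        exact Ideal.subset_span ⟨s, h, rfl⟩
      · rfl
    have h2 : (aeval (fun s => if s ∈ Z then 0 else X (e s)) : S σ →ₐ[ℂ] S τ) =
        (rename e : S σ →ₐ[ℂ] S τ).comp θ := by
      apply MvPolynomial.algHom_ext
      intro s
      rw [AlgHom.comp_apply, hθ, aeval_X, aeval_X]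
      split_ifs with h
      · rw [map_zero]
      · rw [rename_X]
    rw [RingHom.mem_ker, h2] at hf
    have h3 : θ f = 0 := by
      apply rename_injective e he
      rw [map_zero]
      exact hf
    have h4 := congrArg (fun F : S σ →ₐ[ℂ] (S σ ⧸ I) => F f) h1
    simp only [AlgHom.comp_apply, h3, map_zero] at h4
    exact Ideal.Quotient.eq_zero_iff_mem.1 h4.symm
  · rw [hI, Ideal.span_le]
    rintro _ ⟨s, hs, rfl⟩
    rw [SetLike.mem_coe, RingHom.mem_ker, aeval_X, if_pos (by exact hs)]

end Pool.Agent.KIR.S4b
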