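import Pool.Agent.KIR.S4b.Stm

/-!
# PROJECT KIR, section S4b, piece MNR (helper68): a minor separates the two orbits
-/

set_option autoImplicit false

namespace Pool.Agent.KIR.S4b

open MvPolynomial Filter Topology Pool.Agent.KIR

/-- an entry of `M_c b'` vanishes if the column is to the left of `c a` -/
theorem mnr_zero {n m : ℕ} (c : Fin n → Option (Fin m)) (b' : Matrix (Fin m) (Fin m) ℂ)
    (hb' : ∀ i j, j < i → b' i j = 0) (a : Fin n) (l : Fin m) (h : ∀ r, c a = some r → l < r) :
    (Mc c * b') a l = 0 := by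
  rw [Matrix.mul_apply]
  apply Finset.sum_eq_zero
  intro r _
  unfold Mc
  split_ifs with h1
  · rw [one_mul]; exact hb' r l (h r h1)
  · rw [zero_mul]

theorem t_MNR : S_MNR := by
  intro n m c i j hc hij hpos
  classical
  obtain ⟨q0, hq0⟩ : ∃ q0, c j = some q0 := by
    cases h : c j with
    | none =>
      exfalso
      rw [h] at hpos
      have h1 : pos (c i) ≤ m := by
        cases c i with
        | none => exact le_rfl
        | some r => exact r.2.le
      have h2 : pos (none : Option (Fin m)) = m := rfl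
      omega
    | some q0 => exact ⟨q0, rfl⟩
  have hci : ∀ r, c i = some r → q0 < r := by
    intro r hr
    rw [hq0, hr] at hpos
    exact hpos
  have hne : i ≠ j := by
    intro h
    rw [h] at hij
    omega
  obtain ⟨c', hc'⟩ : ∃ c', c' = c ∘ Equiv.swap i j := ⟨_, rfl⟩
  rw [← hc']
  have hc'i : c' i = some q0 := by
    rw [hc']
    simp [hq0]
  have hc'k : ∀ k, k ≠ i → k ≠ j → c' k = c k := by
    intro k h1 h2
    rw [hc']
    simp [Equiv.swap_apply_of_ne_of_ne h1 h2]
  have hPc' : PInj c' := by
    intro k k' l h1 h2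
    rw [hc'] at h1 h2
    exact (Equiv.swap i j).injective (hc _ _ l h1 h2)
  let R := {k : Fin n // k ≤ i ∧ ∃ l, c' k = some l ∧ l ≤ q0}
  have hR : ∀ k : R, ∃ l, c' k.1 = some l ∧ l ≤ q0 := fun k => k.2.2
  choose q hq using hR
  let iR : R := ⟨i, le_rfl, q0, hc'i, le_rfl⟩
  refine ⟨(Matrix.of (fun k l : R => (X (k.1, q l) : S (Fin n × Fin m)))).det, ?_, ?_⟩
  · intro z hz
    obtain ⟨b, b', hb1, hb2, hb'1, hb'2, hz⟩ := hz
    rw [RingHom.map_det]
    have h1 : (eval z).mapMatrix (Matrix.of (fun k l : R => (X (k.1, q l) : S (Fin n × Fin m)))) =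
        (Matrix.of (fun k a : R => b k.1 a.1)) *
          (Matrix.of (fun a l : R => (Mc c * b') a.1 (q l))) := by
      ext k l
      rw [RingHom.mapMatrix_apply, Matrix.map_apply, Matrix.of_apply, eval_X, hz,
        Matrix.mul_assoc, Matrix.mul_apply, Matrix.mul_apply]
      simp only [Matrix.of_apply]
      rw [← Finset.sum_subtype (Finset.univ.filter
        (fun k : Fin n => k ≤ i ∧ ∃ l, c' k = some l ∧ l ≤ q0)) (by simp)
        (fun a => b k.1 a * (Mc c * b') a (q l))]
      symm
      apply Finset.sum_subset (Finset.subset_univ _)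
      intro a _ ha
      have ha' : ¬ (a ≤ i ∧ ∃ l, c' a = some l ∧ l ≤ q0) := by
        intro h
        exact ha (by simpa using h)
      by_cases hai : a ≤ i
      · have hai' : a ≠ i := by
          intro h
          exact ha' ⟨hai, q0, by rw [h]; exact hc'i, le_rfl⟩
        have haj : a ≠ j := by
          intro h
          rw [h] at hai
          have := Fin.le_def.1 hai
          omega
        rw [mnr_zero c b' hb'1 a (q l), mul_zero]
        intro r hr
        have h2 : ¬ r ≤ q0 := fun h => ha' ⟨hai, r, by rw [hc'k a hai' haj]; exact hr, h⟩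
        exact lt_of_le_of_lt (hq l).2 (not_le.1 h2)
      · rw [hb1 k.1 a (lt_of_le_of_lt k.2.1 (not_le.1 hai)), zero_mul]
    rw [h1, Matrix.det_mul, Matrix.det_eq_zero_of_row_eq_zero (A := Matrix.of
      (fun a l : R => (Mc c * b') a.1 (q l))) iR, mul_zero]
    intro l
    rw [Matrix.of_apply]
    exact mnr_zero c b' hb'1 i (q l) (fun r hr => lt_of_le_of_lt (hq l).2 (hci r hr))
  · rw [RingHom.map_det]
    have h1 : (eval (fun s : Fin n × Fin m => Mc c' s.1 s.2)).mapMatrix
        (Matrix.of (fun k l : R => (X (k.1, q l) : S (Fin n × Fin m)))) = 1 := by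
      ext k l
      rw [RingHom.mapMatrix_apply, Matrix.map_apply, Matrix.of_apply, eval_X, Matrix.one_apply]
      unfold Mc
      by_cases h : k = l
      · rw [if_pos h, if_pos (by rw [h]; exact (hq l).1)]
      · rw [if_neg h, if_neg]
        intro h2
        exact h (Subtype.ext (hPc' _ _ _ h2 (hq l).1))
    rw [h1, Matrix.det_one]
    exact one_ne_zero

end Pool.Agent.KIR.S4b
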