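import Pool.Agent.KIR.S4b.Stm

/-!
# KIR, S4b, piece OPP (helper39): the orbit of `c'` is generic in the parabolic orbit of `c`
-/

set_option autoImplicit false

namespace Pool.Agent.KIR.S4b

open MvPolynomial Filter Topology Pool.Agent.KIR

namespace OPP39

variable {n m : ℕ}

lemma pos_le (o : Option (Fin m)) : pos o ≤ m := by
  cases o with
  | none => simp [pos]
  | some l => simpa [pos] using l.2.le

/-- swapping rows -/
lemma mul_swap (c : Fin n → Option (Fin m)) (i j : Fin n) (b : Matrix (Fin n) (Fin n) ℂ)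
    (a : Fin n) (l : Fin m) :
    (b * Mc (c ∘ Equiv.swap i j)) a l = ∑ k, b a (Equiv.swap i j k) * Mc c k l := by
  rw [Matrix.mul_apply, ← Equiv.sum_comp (Equiv.swap i j)]
  refine Finset.sum_congr rfl fun k _ => ?_
  have : Mc (c ∘ Equiv.swap i j) (Equiv.swap i j k) l = Mc c k l := by
    unfold Mc
    simp
  rw [this]

/-- the matrix of the parabolic group at a point -/
def pm (i j : Fin n) (y : Fin n × Fin n → ℂ) : Matrix (Fin n) (Fin n) ℂ :=
  Matrix.of (fun a b => if a < b ∧ ¬ (a = i ∧ b = j) then 0 else y (a, b))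

/-- upper triangular matrix at a point -/
def um (y : Fin m × Fin m → ℂ) : Matrix (Fin m) (Fin m) ℂ :=
  Matrix.of (fun a b => if b < a then 0 else y (a, b))

lemma pm_zero {i j : Fin n} {y : Fin n × Fin n → ℂ} {a b : Fin n} (h : a < b)
    (h' : ¬ (a = i ∧ b = j)) : pm i j y a b = 0 := by
  unfold pm
  rw [Matrix.of_apply, if_pos ⟨h, h'⟩]

lemma pm_of_le {i j : Fin n} {y : Fin n × Fin n → ℂ} {a b : Fin n} (h : b ≤ a) :
    pm i j y a b = y (a, b) := by
  unfold pm
  rw [Matrix.of_apply, if_neg fun h' => absurd h'.1 (not_lt.2 h)]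

lemma pm_ij {i j : Fin n} {y : Fin n × Fin n → ℂ} : pm i j y i j = y (i, j) := by
  unfold pm
  rw [Matrix.of_apply, if_neg fun h' => h'.2 ⟨rfl, rfl⟩]

/-- the lower triangular matrix -/
def bm (i j : Fin n) (p : Matrix (Fin n) (Fin n) ℂ) (x : ℂ) : Matrix (Fin n) (Fin n) ℂ :=
  Matrix.of (fun a k => p a (Equiv.swap i j k) - x * (if k = j then p a j else 0))

/-- the unipotent matrix -/
def vm (o : Option (Fin m)) (cj : Fin m) (x : ℂ) : Matrix (Fin m) (Fin m) ℂ :=
  Matrix.of (fun l l' => (if l = l' then 1 else 0) + (if l = cj ∧ o = some l' then x else 0))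

lemma mul_vm {M : Matrix (Fin n) (Fin m) ℂ} (o : Option (Fin m)) (cj : Fin m) (x : ℂ)
    (a : Fin n) (l : Fin m) :
    (M * vm o cj x) a l = M a l + (if o = some l then M a cj * x else 0) := by
  rw [Matrix.mul_apply]
  unfold vm
  simp only [Matrix.of_apply, mul_add, Finset.sum_add_distrib]
  congr 1
  · simp
  · by_cases h : o = some l
    · simp [h]
    · simp [h]

lemma key (c : Fin n → Option (Fin m)) (i j : Fin n) (hc : PInj c) (hij : i ≠ j) (cj : Fin m)
    (hcj : c j = some cj) (hne : c i ≠ some cj) (p : Matrix (Fin n) (Fin n) ℂ) (x : ℂ) :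
    bm i j p x * Mc (c ∘ Equiv.swap i j) * vm (c i) cj x = p * Mc c := by
  have h1 : ∀ a l, (bm i j p x * Mc (c ∘ Equiv.swap i j)) a l =
      (p * Mc c) a l - x * (if c i = some l then p a j else 0) := by
    intro a l
    rw [mul_swap, Matrix.mul_apply]
    have h2 : ∀ k, bm i j p x a (Equiv.swap i j k) * Mc c k l =
        p a k * Mc c k l - x * (if k = i then p a j * Mc c i l else 0) := by
      intro k
      unfold bm
      rw [Matrix.of_apply, Equiv.swap_apply_self]
      by_cases hk : k = i
      · subst hk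
        simp
        ring
      · have : Equiv.swap i j k ≠ j := by
          intro h
          apply hk
          have := congrArg (Equiv.swap i j) h
          rwa [Equiv.swap_apply_self, Equiv.swap_apply_right] at this
        rw [if_neg this, if_neg hk]
        ring
    simp only [h2, Finset.sum_sub_distrib, ← Finset.mul_sum]
    congr 2
    rw [Finset.sum_ite_eq' Finset.univ i, if_pos (Finset.mem_univ _)]
    unfold Mc
    by_cases h : c i = some l <;> simp [h]
  have h3 : ∀ a, (p * Mc c) a cj = p a j := by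
    intro a
    rw [Matrix.mul_apply, Finset.sum_eq_single j]
    · unfold Mc
      rw [if_pos hcj, mul_one]
    · intro k _ hk
      unfold Mc
      rw [if_neg, mul_zero]
      intro h
      exact hk (hc k j cj h hcj)
    · intro h
      exact absurd (Finset.mem_univ _) h
  ext a l
  rw [mul_vm, h1, h1, h3, if_neg hne]
  by_cases h : c i = some l
  · rw [if_pos h, if_pos h]
    ring
  · rw [if_neg h, if_neg h]
    ring

lemma upper_mul {v b' : Matrix (Fin m) (Fin m) ℂ} (hv : ∀ l l', l' < l → v l l' = 0)
    (hb : ∀ l l', l' < l → b' l l' = 0) :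
    (∀ l l', l' < l → (v * b') l l' = 0) ∧ ∀ l, (v * b') l l = v l l * b' l l := by
  constructor
  · intro l l' h
    rw [Matrix.mul_apply]
    refine Finset.sum_eq_zero fun k _ => ?_
    rcases lt_or_ge k l with h1 | h1
    · rw [hv l k h1, zero_mul]
    · rw [hb k l' (lt_of_lt_of_le h h1), mul_zero]
  · intro l
    rw [Matrix.mul_apply, Finset.sum_eq_single l]
    · intro k _ hk
      rcases lt_or_gt_of_ne hk with h1 | h1
      · rw [hv l k h1, zero_mul]
      · rw [hb k l h1, mul_zero]
    · intro h
      exact absurd (Finset.mem_univ _) h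

/-- the polynomial -/
noncomputable def hp (n m : ℕ) (i j : Fin n) : S ((Fin n × Fin n) ⊕ (Fin m × Fin m)) :=
  X (Sum.inl (i, j)) *
    (X (Sum.inl (i, i)) * X (Sum.inl (j, j)) - X (Sum.inl (i, j)) * X (Sum.inl (j, i))) *
    (∏ r ∈ Finset.univ.filter (fun r => r ≠ i ∧ r ≠ j), X (Sum.inl (r, r))) *
    ∏ l : Fin m, X (Sum.inr (l, l))

lemma eval_hp (i j : Fin n) (y : (Fin n × Fin n) ⊕ (Fin m × Fin m) → ℂ) :
    eval y (hp n m i j) = y (Sum.inl (i, j)) *
      (y (Sum.inl (i, i)) * y (Sum.inl (j, j)) - y (Sum.inl (i, j)) * y (Sum.inl (j, i))) *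
      (∏ r ∈ Finset.univ.filter (fun r => r ≠ i ∧ r ≠ j), y (Sum.inl (r, r))) *
      ∏ l : Fin m, y (Sum.inr (l, l)) := by
  unfold hp
  simp [eval_prod]

lemma hp_ne (i j : Fin n) (hij : i ≠ j) : hp n m i j ≠ 0 := by
  intro h
  have h1 := eval_hp (m := m) i j (Sum.elim (fun s => if s.2 = Equiv.swap i j s.1 then 1 else 0)
    (fun s => if s.1 = s.2 then 1 else 0))
  rw [h, map_zero] at h1
  simp only [Sum.elim_inl, Sum.elim_inr, Equiv.swap_apply_left, Equiv.swap_apply_right] at h1
  have h2 : ∏ r ∈ Finset.univ.filter (fun r => r ≠ i ∧ r ≠ j),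
      (if r = Equiv.swap i j r then (1 : ℂ) else 0) = 1 := by
    refine Finset.prod_eq_one fun r hr => ?_
    rw [Finset.mem_filter] at hr
    rw [Equiv.swap_apply_of_ne_of_ne hr.2.1 hr.2.2, if_pos rfl]
  rw [h2] at h1
  simp [hij, hij.symm] at h1

end OPP39

open OPP39 in
theorem t_OPP : S_OPP := by
  intro n m c i j hc hj hpos
  have hij : i < j := by
    rw [Fin.lt_def]
    omega
  have hne : i ≠ j := ne_of_lt hij
  have hle : ∀ a : Fin n, a < j → a ≤ i := by
    intro a ha
    rw [Fin.lt_def] at ha
    rw [Fin.le_def]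
    omega
  obtain ⟨cj, hcj⟩ : ∃ l, c j = some l := by
    cases h : c j with
    | none =>
      exfalso
      have h1 := pos_le (c i)
      rw [h] at hpos
      simp [pos] at hpos h1
      omega
    | some l => exact ⟨l, rfl⟩
  constructor
  · rintro z ⟨b, b', hb, hbd, hb', hbd', hz⟩
    refine ⟨Sum.elim (fun s => b s.1 (Equiv.swap i j s.2)) (fun s => b' s.1 s.2), ?_⟩
    rw [ev_phP]
    funext s
    rw [hz s]
    have e1 : (Matrix.of (fun a k => if a < k ∧ ¬ (a = i ∧ k = j) then 0 else
        (Sum.elim (fun s : Fin n × Fin n => b s.1 (Equiv.swap i j s.2))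
          (fun s : Fin m × Fin m => b' s.1 s.2)) (Sum.inl (a, k))) : Matrix (Fin n) (Fin n) ℂ) =
        Matrix.of (fun a k => b a (Equiv.swap i j k)) := by
      ext a k
      simp only [Matrix.of_apply, Sum.elim_inl]
      split_ifs with h
      · symm
        by_cases hkj : k = j
        · subst hkj
          rw [Equiv.swap_apply_right]
          exact hb a i (lt_of_le_of_ne (hle a h.1) fun h' => h.2 ⟨h', rfl⟩)
        · by_cases hki : k = i
          · subst hki
            rw [Equiv.swap_apply_left]
            exact hb a j (h.1.trans hij)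
          · rw [Equiv.swap_apply_of_ne_of_ne hki hkj]
            exact hb a k h.1
      · rfl
    have e2 : (Matrix.of (fun a k => if k < a then 0 else
        (Sum.elim (fun s : Fin n × Fin n => b s.1 (Equiv.swap i j s.2))
          (fun s : Fin m × Fin m => b' s.1 s.2)) (Sum.inr (a, k))) : Matrix (Fin m) (Fin m) ℂ) =
        b' := by
      ext a k
      simp only [Matrix.of_apply, Sum.elim_inr]
      split_ifs with h
      · exact (hb' a k h).symm
      · rfl
    rw [e1, e2]
    have e3 : b * Mc (c ∘ Equiv.swap i j) =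
        (Matrix.of (fun a k => b a (Equiv.swap i j k)) : Matrix (Fin n) (Fin n) ℂ) * Mc c := by
      ext a l
      rw [mul_swap, Matrix.mul_apply]
      rfl
    rw [e3]
  · refine ⟨hp n m i j, hp_ne i j hne, fun y hy => ?_⟩
    rw [eval_hp] at hy
    have hy4 : ∀ l : Fin m, y (Sum.inr (l, l)) ≠ 0 := by
      have := right_ne_zero_of_mul hy
      rw [Finset.prod_ne_zero_iff] at this
      exact fun l => this l (Finset.mem_univ _)
    have hy3 : ∀ r : Fin n, r ≠ i → r ≠ j → y (Sum.inl (r, r)) ≠ 0 := by
      have := right_ne_zero_of_mul (left_ne_zero_of_mul hy)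
      rw [Finset.prod_ne_zero_iff] at this
      exact fun r h h' => this r (by simp [h, h'])
    have hy2 := right_ne_zero_of_mul (left_ne_zero_of_mul (left_ne_zero_of_mul hy))
    have hy1 := left_ne_zero_of_mul (left_ne_zero_of_mul (left_ne_zero_of_mul hy))
    set yl : Fin n × Fin n → ℂ := fun s => y (Sum.inl s) with hyl
    set yr : Fin m × Fin m → ℂ := fun s => y (Sum.inr s) with hyr
    set p := pm i j yl with hpdef
    set x : ℂ := yl (i, i) / yl (i, j) with hx
    have hpij : p i j = yl (i, j) := pm_ij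
    have hpii : p i i = yl (i, i) := pm_of_le le_rfl
    have hpji : p j i = yl (j, i) := pm_of_le hij.le
    have hpjj : p j j = yl (j, j) := pm_of_le le_rfl
    have hneo : c i ≠ some cj := by
      intro h
      rw [h, hcj] at hpos
      exact lt_irrefl _ hpos
    have hev : ev (phP c i j) y = fun s => (p * Mc c * um yr) s.1 s.2 := ev_phP c i j y
    rw [hev, ← key c i j hc hne cj hcj hneo p x]
    have hv : ∀ l l', l' < l → vm (c i) cj x l l' = 0 := by
      intro l l' h
      unfold vm
      rw [Matrix.of_apply, if_neg (ne_of_gt h), if_neg, add_zero]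
      rintro ⟨h1, h2⟩
      rw [h2, hcj, ← h1] at hpos
      simp only [pos, Option.elim] at hpos
      rw [Fin.lt_def] at h
      omega
    have hvd : ∀ l, vm (c i) cj x l l = 1 := by
      intro l
      unfold vm
      rw [Matrix.of_apply, if_pos rfl, if_neg, add_zero]
      rintro ⟨h1, h2⟩
      rw [h1] at h2
      exact hneo h2
    have hu : ∀ l l', l' < l → um yr l l' = 0 := by
      intro l l' h
      unfold um
      rw [Matrix.of_apply, if_pos h]
    have hud : ∀ l, um yr l l ≠ 0 := by
      intro l
      unfold um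
      rw [Matrix.of_apply, if_neg (lt_irrefl _)]
      exact hy4 l
    obtain ⟨g1, g2⟩ := upper_mul hv hu
    refine ⟨bm i j p x, vm (c i) cj x * um yr, ?_, ?_, g1, ?_, ?_⟩
    · intro a k hak
      unfold bm
      rw [Matrix.of_apply]
      by_cases hkj : k = j
      · subst hkj
        rw [Equiv.swap_apply_right, if_pos rfl]
        rcases eq_or_lt_of_le (hle a hak) with h | h
        · subst h
          rw [hpii, hpij, hx, div_mul_cancel₀ _ hy1, sub_self]
        · rw [hpdef, pm_zero h (fun h' => absurd h'.1 (ne_of_lt h)),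
            pm_zero hak (fun h' => absurd h'.1 (ne_of_lt h)), mul_zero, sub_zero]
      · rw [if_neg hkj, mul_zero, sub_zero]
        by_cases hki : k = i
        · subst hki
          rw [Equiv.swap_apply_left]
          exact pm_zero (hak.trans hij) (fun h' => absurd h'.1 (ne_of_lt hak))
        · rw [Equiv.swap_apply_of_ne_of_ne hki hkj]
          exact pm_zero hak (fun h' => hkj h'.2)
    · intro a
      unfold bm
      rw [Matrix.of_apply]
      by_cases haj : a = j
      · subst haj
        rw [Equiv.swap_apply_right, if_pos rfl, hpji, hpjj, hx]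
        have h1 : yl (a, i) - yl (i, i) / yl (i, a) * yl (a, a) =
            -(yl (i, i) * yl (a, a) - yl (i, a) * yl (a, i)) / yl (i, a) := by
          have : yl (i, a) ≠ 0 := hy1
          field_simp
          ring
        rw [h1]
        exact div_ne_zero (neg_ne_zero.2 hy2) hy1
      · rw [if_neg haj, mul_zero, sub_zero]
        by_cases hai : a = i
        · subst hai
          rw [Equiv.swap_apply_left, hpij]
          exact hy1
        · rw [Equiv.swap_apply_of_ne_of_ne hai haj, hpdef, pm_of_le le_rfl]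
          exact hy3 a hai haj
    · intro l
      rw [g2, hvd, one_mul]
      exact hud l
    · intro s
      rw [Matrix.mul_assoc (bm i j p x * Mc (c ∘ Equiv.swap i j))]

end Pool.Agent.KIR.S4b
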