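import Pool.Agent.KIR.S4b.Stm

/-!
# PROJECT KIR, piece S4b.OPR (helper46): orbits are parametrized
-/

set_option autoImplicit false

namespace Pool.Agent.KIR.S4b

open MvPolynomial Filter Topology Pool.Agent.KIR

theorem t_OPR : S_OPR := by
  intro n m c
  constructor
  · rintro z ⟨b, b', hb, _, hb', _, hz⟩
    refine ⟨Sum.elim (fun s => b s.1 s.2) (fun s => b' s.1 s.2), ?_⟩
    rw [ev_phB]
    funext s
    rw [hz s]
    have h1 : (Matrix.of (fun a k => if a < k then 0 else
        (Sum.elim (fun s => b s.1 s.2) (fun s => b' s.1 s.2) :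
          (Fin n × Fin n) ⊕ (Fin m × Fin m) → ℂ) (Sum.inl (a, k))) : Matrix (Fin n) (Fin n) ℂ) = b := by
      ext a k
      simp only [Matrix.of_apply, Sum.elim_inl]
      split_ifs with h
      · exact (hb a k h).symm
      · rfl
    have h2 : (Matrix.of (fun a k => if k < a then 0 else
        (Sum.elim (fun s => b s.1 s.2) (fun s => b' s.1 s.2) :
          (Fin n × Fin n) ⊕ (Fin m × Fin m) → ℂ) (Sum.inr (a, k))) : Matrix (Fin m) (Fin m) ℂ) = b' := by
      ext a k
      simp only [Matrix.of_apply, Sum.elim_inr]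
      split_ifs with h
      · exact (hb' a k h).symm
      · rfl
    rw [h1, h2]
  · refine ⟨(∏ a, X (Sum.inl (a, a))) * ∏ a, X (Sum.inr (a, a)), ?_, ?_⟩
    · exact mul_ne_zero (Finset.prod_ne_zero_iff.2 fun a _ => X_ne_zero _)
        (Finset.prod_ne_zero_iff.2 fun a _ => X_ne_zero _)
    · intro y hy
      rw [ev_phB]
      simp only [map_mul, map_prod, eval_X] at hy
      have hy1 := left_ne_zero_of_mul hy
      have hy2 := right_ne_zero_of_mul hy
      rw [Finset.prod_ne_zero_iff] at hy1 hy2
      refine ⟨_, _, ?_, ?_, ?_, ?_, fun s => rfl⟩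
      · intro a k hak
        simp [hak]
      · intro a
        simpa using hy1 a (Finset.mem_univ a)
      · intro a k hak
        simp [hak]
      · intro a
        simpa using hy2 a (Finset.mem_univ a)

end Pool.Agent.KIR.S4b
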