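import Pool.Agent.KIR.S4b.Stm

/-!
# KIR S4b, piece OPU (helper70)
-/

set_option autoImplicit false

namespace Pool.Agent.KIR.S4b

open MvPolynomial Filter Topology Pool.Agent.KIR

namespace OPUP

variable {n m : ℕ}

lemma act_mul {i j : Fin n} {t : ℂ} {b p : Matrix (Fin n) (Fin n) ℂ} (N : Matrix (Fin n) (Fin m) ℂ)
    (h : ∀ a k, p a k = b a k + if a = i then t * b j k else 0) :
    (fun s : Fin n × Fin m => (p * N) s.1 s.2) =
      act (rg i j) t (fun s : Fin n × Fin m => (b * N) s.1 s.2) := by
  funext s
  unfold act rg
  by_cases hs : s.1 = i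
  · rw [if_pos hs]
    simp only [Option.elim_some, Matrix.mul_apply]
    rw [Finset.mul_sum, ← Finset.sum_add_distrib]
    refine Finset.sum_congr rfl fun k _ => ?_
    rw [h, if_pos hs]
    ring
  · rw [if_neg hs]
    simp only [Option.elim_none, Matrix.mul_apply, mul_zero, add_zero]
    refine Finset.sum_congr rfl fun k _ => ?_
    rw [h, if_neg hs, add_zero]

end OPUP

open OPUP in
theorem t_OPU : S_OPU := by
  intro n m c i j hij
  have hne : j ≠ i := fun h => by
    rw [h] at hij
    omega
  constructor
  · rintro z' ⟨t, z, ⟨b, b', hb, hb0, hb', hb0', hz⟩, rfl⟩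
    refine ⟨Sum.elim (fun s => b s.1 s.2 + if s.1 = i then t * b j s.2 else 0)
      (fun s => b' s.1 s.2), ?_⟩
    rw [ev_phP]
    have h1 : (Matrix.of (fun a l => if l < a then 0 else (Sum.elim (fun s : Fin n × Fin n =>
        b s.1 s.2 + if s.1 = i then t * b j s.2 else 0) (fun s : Fin m × Fin m => b' s.1 s.2))
          (Sum.inr (a, l))) : Matrix (Fin m) (Fin m) ℂ) = b' := by
      ext a l
      simp only [Matrix.of_apply, Sum.elim_inr]
      split_ifs with h
      · exact (hb' a l h).symm
      · rfl
    have h2 : ∀ a k, (Matrix.of (fun a l => if a < l ∧ ¬ (a = i ∧ l = j) then 0 else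
        (Sum.elim (fun s : Fin n × Fin n => b s.1 s.2 + if s.1 = i then t * b j s.2 else 0)
          (fun s : Fin m × Fin m => b' s.1 s.2)) (Sum.inl (a, l))) : Matrix (Fin n) (Fin n) ℂ) a k =
          b a k + if a = i then t * b j k else 0 := by
      intro a k
      simp only [Matrix.of_apply, Sum.elim_inl]
      split_ifs with h h3 h3
      · rw [hb a k h.1, hb j k, mul_zero, add_zero]
        have h4 := h.1
        have h5 : k ≠ j := fun h6 => h.2 ⟨h3, h6⟩
        rw [Fin.lt_def] at h4 ⊢
        rw [h3] at h4
        have h6 : (k : ℕ) ≠ j := fun h7 => h5 (Fin.ext h7)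
        omega
      · rw [hb a k h.1, add_zero]
      · rfl
      · rfl
    rw [h1]
    have h3 := act_mul (i := i) (j := j) (t := t) (Mc c * b') h2
    simp only [← Matrix.mul_assoc] at h3
    have h4 : z = fun s : Fin n × Fin m => (b * Mc c * b') s.1 s.2 := funext hz
    rw [h4]
    exact h3.symm
  · refine ⟨X (Sum.inl (j, j)) * (X (Sum.inl (i, i)) * X (Sum.inl (j, j)) -
      X (Sum.inl (i, j)) * X (Sum.inl (j, i))) *
      (∏ r : Fin n, if r = i then 1 else X (Sum.inl (r, r))) * ∏ l : Fin m, X (Sum.inr (l, l)),
      ?_, ?_⟩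
    · intro h
      have h1 := congrArg (eval (Sum.elim (fun s : Fin n × Fin n => if s.1 = s.2 then (1 : ℂ) else 0)
        (fun _ : Fin m × Fin m => (1 : ℂ)))) h
      simp only [map_mul, map_sub, map_prod, eval_X, Sum.elim_inl, Sum.elim_inr, if_true,
        map_zero, Finset.prod_const_one, mul_one, one_mul, if_neg hne, mul_zero, sub_zero] at h1
      have h2 : ∏ r : Fin n, (eval (Sum.elim (fun s : Fin n × Fin n =>
          if s.1 = s.2 then (1 : ℂ) else 0) (fun _ : Fin m × Fin m => (1 : ℂ))))
          (if r = i then 1 else X (Sum.inl (r, r))) = 1 := by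
        refine Finset.prod_eq_one fun r _ => ?_
        split_ifs <;> simp
      rw [h2] at h1
      exact one_ne_zero h1
    · intro y hy
      simp only [map_mul, map_sub, map_prod, eval_X, mul_ne_zero_iff, Finset.prod_ne_zero_iff,
        Finset.mem_univ, true_implies] at hy
      obtain ⟨⟨⟨hjj, hdet⟩, hr⟩, hl⟩ := hy
      rw [ev_phP]
      obtain ⟨p, hp⟩ : ∃ p : Matrix (Fin n) (Fin n) ℂ, p = Matrix.of (fun a b =>
        if a < b ∧ ¬ (a = i ∧ b = j) then 0 else y (Sum.inl (a, b))) := ⟨_, rfl⟩
      obtain ⟨b', hb'⟩ : ∃ b' : Matrix (Fin m) (Fin m) ℂ, b' = Matrix.of (fun a b =>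
        if b < a then 0 else y (Sum.inr (a, b))) := ⟨_, rfl⟩
      rw [← hp, ← hb']
      have pv : ∀ a k, p a k = if a < k ∧ ¬ (a = i ∧ k = j) then 0 else y (Sum.inl (a, k)) :=
        fun a k => by rw [hp]; rfl
      have pii : ∀ a, p a a = y (Sum.inl (a, a)) := fun a => by
        rw [pv, if_neg]
        exact fun h => lt_irrefl _ h.1
      have pij : p i j = y (Sum.inl (i, j)) := by
        rw [pv, if_neg]
        exact fun h => h.2 ⟨rfl, rfl⟩
      have pji : p j i = y (Sum.inl (j, i)) := by
        rw [pv, if_neg]
        intro h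
        have := h.1
        rw [Fin.lt_def] at this
        omega
      rw [← pii] at hjj
      rw [← pii, ← pii, ← pij, ← pji] at hdet
      obtain ⟨t, ht⟩ : ∃ t, t = p i j / p j j := ⟨_, rfl⟩
      refine ⟨t, fun s => ((Matrix.of (fun a k => p a k - if a = i then t * p j k else 0) :
        Matrix (Fin n) (Fin n) ℂ) * Mc c * b') s.1 s.2, ⟨_, b', ?_, ?_, ?_, ?_, fun s => rfl⟩, ?_⟩
      · intro a k hak
        rw [Matrix.of_apply]
        by_cases hai : a = i
        · rw [if_pos hai]
          by_cases hkj : k = j
          · rw [hai, hkj, ht]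
            field_simp
            ring
          · have h1 : p a k = 0 := by
              rw [pv, if_pos ⟨hak, fun h => hkj h.2⟩]
            have h2 : p j k = 0 := by
              rw [pv, if_pos]
              refine ⟨?_, fun h => hne h.1⟩
              rw [Fin.lt_def] at hak ⊢
              rw [hai] at hak
              have h6 : (k : ℕ) ≠ j := fun h7 => hkj (Fin.ext h7)
              omega
            rw [h1, h2]
            ring
        · rw [if_neg hai, pv, if_pos ⟨hak, fun h => hai h.1⟩, sub_zero]
      · intro a
        rw [Matrix.of_apply]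
        by_cases hai : a = i
        · rw [if_pos hai, hai, ht]
          intro h
          apply hdet
          have h1 : (p i i - p i j / p j j * p j i) * p j j = 0 := by rw [h, zero_mul]
          have h2 : (p i i - p i j / p j j * p j i) * p j j = p i i * p j j - p i j * p j i := by
            field_simp
          rw [← h2, h1]
        · rw [if_neg hai, sub_zero, pii]
          have h1 := hr a
          rw [if_neg hai, eval_X] at h1
          exact h1
      · intro a l hla
        rw [hb', Matrix.of_apply, if_pos hla]
      · intro l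
        rw [hb', Matrix.of_apply, if_neg (lt_irrefl _)]
        exact hl l
      · have h2 : ∀ a k, p a k = (Matrix.of (fun a k => p a k - if a = i then t * p j k else 0) :
            Matrix (Fin n) (Fin n) ℂ) a k + if a = i then t *
              (Matrix.of (fun a k => p a k - if a = i then t * p j k else 0) :
                Matrix (Fin n) (Fin n) ℂ) j k else 0 := by
          intro a k
          simp only [Matrix.of_apply, if_neg hne, sub_zero]
          split_ifs
          · ring
          · ring
        have h3 := act_mul (i := i) (j := j) (t := t) (Mc c * b') h2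
        simp only [← Matrix.mul_assoc] at h3
        exact h3

end Pool.Agent.KIR.S4b
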