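import Pool.Agent.KIR.S4b.Stm

/-!
# KIR S4b, piece A1 (ORB) (helper33): orbit ideals are prime, graded and stable
-/

set_option autoImplicit false

namespace Pool.Agent.KIR.S4b

open MvPolynomial Filter Topology Pool.Agent.KIR

namespace ORB

theorem prod_Wm {n m : ℕ} (l : Fin n ⊕ Fin m → ℂˣ) (s : Fin n × Fin m) :
    ((∏ r, l r ^ Wm s r : ℂˣ) : ℂ) = (l (Sum.inl s.1) : ℂ) * ((l (Sum.inr s.2))⁻¹ : ℂˣ) := by
  rw [← Units.val_mul]
  congr 1
  rw [Fintype.prod_sum_type]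
  have h1 : (∏ i : Fin n, l (Sum.inl i) ^ Wm s (Sum.inl i)) = l (Sum.inl s.1) := by
    rw [Finset.prod_eq_single s.1]
    · simp [Wm]
    · intro b _ hb
      simp [Wm, hb]
    · intro h
      exact absurd (Finset.mem_univ _) h
  have h2 : (∏ j : Fin m, l (Sum.inr j) ^ Wm s (Sum.inr j)) = (l (Sum.inr s.2))⁻¹ := by
    rw [Finset.prod_eq_single s.2]
    · simp [Wm]
    · intro b _ hb
      simp [Wm, hb]
    · intro h
      exact absurd (Finset.mem_univ _) h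
  rw [h1, h2]

end ORB

theorem t_ORB (hPAR : S_PAR) (hTOR : S_TOR) (hSTB : S_STB) (hOPR : S_OPR) (hOTO : S_OTO)
    (hOST : S_OST) : S_ORB := by
  intro n m c _
  refine ⟨(hPAR _ _ _ _ (hOPR n m c)).2, ?_, ?_, ?_⟩
  · refine hTOR _ _ Wm (Orb c) fun l z hz => ?_
    have h := hOTO n m c (fun i => (l (Sum.inl i) : ℂ)) (fun j => (((l (Sum.inr j))⁻¹ : ℂˣ) : ℂ))
      (fun i => (l (Sum.inl i)).ne_zero) (fun j => ((l (Sum.inr j))⁻¹).ne_zero) z hz
    have h' : (fun s : Fin n × Fin m => ((∏ r, l r ^ Wm s r : ℂˣ) : ℂ) * z s) =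
        fun s => (l (Sum.inl s.1) : ℂ) * (((l (Sum.inr s.2))⁻¹ : ℂˣ) : ℂ) * z s := by
      funext s
      rw [ORB.prod_Wm]
    rw [h']
    exact h
  · intro a b hab
    exact (hSTB _ (rg b a) (Orb c)).1 fun t z hz => (hOST n m c t z hz).1 a b hab
  · intro a b hab
    exact (hSTB _ (cg a b) (Orb c)).1 fun t z hz => (hOST n m c t z hz).2 a b hab

end Pool.Agent.KIR.S4b
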