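import Pool.Agent.KIR.S4b.Blk

/-!
# KIR S4b, piece A4 (ORB2) (helper91): products of orbits
-/

set_option autoImplicit false

namespace Pool.Agent.KIR.S4b

open MvPolynomial Filter Topology Pool.Agent.KIR

namespace ORB2

variable {n : ℕ}

theorem prod_Wm {m : ℕ} (l : Fin n ⊕ Fin m → ℂˣ) (s : Fin n × Fin m) :
    ((∏ r, l r ^ Wm s r : ℂˣ) : ℂ) = (l (Sum.inl s.1) : ℂ) * ((l (Sum.inr s.2))⁻¹ : ℂˣ) := by
  rw [← Units.val_mul]
  congr 1
  rw [Fintype.prod_sum_type]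
  have h1 : (∏ i : Fin n, l (Sum.inl i) ^ Wm s (Sum.inl i)) = l (Sum.inl s.1) := by
    rw [Finset.prod_eq_single s.1]
    · simp [Wm]
    · intro b _ hb
      simp [Wm, hb]
    · intro h
      exact absurd (Finset.mem_univ _) h
  have h2 : (∏ j : Fin m, l (Sum.inr j) ^ Wm s (Sum.inr j)) = (l (Sum.inr s.2))⁻¹ := by
    rw [Finset.prod_eq_single s.2]
    · simp [Wm]
    · intro b _ hb
      simp [Wm, hb]
    · intro h
      exact absurd (Finset.mem_univ _) h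
  rw [h1, h2]

theorem prod_W2a (l : (Fin n ⊕ Fin n) ⊕ Fin (n + n) → ℂˣ) (s : Fin n × Fin (n + n))
    (h : (s.2 : ℕ) < n) :
    ((∏ r, l r ^ W2 s r : ℂˣ) : ℂ) =
      (l (Sum.inl (Sum.inl s.1)) : ℂ) * ((l (Sum.inr s.2))⁻¹ : ℂˣ) := by
  rw [← Units.val_mul]
  congr 1
  rw [Fintype.prod_sum_type, Fintype.prod_sum_type]
  have h1 : (∏ i : Fin n, l (Sum.inl (Sum.inl i)) ^ W2 s (Sum.inl (Sum.inl i))) =
      l (Sum.inl (Sum.inl s.1)) := by
    rw [Finset.prod_eq_single s.1]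
    · simp [W2, h]
    · intro b _ hb
      simp [W2, hb]
    · intro h
      exact absurd (Finset.mem_univ _) h
  have h3 : (∏ i : Fin n, l (Sum.inl (Sum.inr i)) ^ W2 s (Sum.inl (Sum.inr i))) = 1 := by
    refine Finset.prod_eq_one fun i _ => ?_
    simp [W2, h]
  have h2 : (∏ j : Fin (n + n), l (Sum.inr j) ^ W2 s (Sum.inr j)) = (l (Sum.inr s.2))⁻¹ := by
    rw [Finset.prod_eq_single s.2]
    · simp [W2]
    · intro b _ hb
      simp [W2, hb]
    · intro h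
      exact absurd (Finset.mem_univ _) h
  rw [h1, h2, h3, mul_one]

theorem prod_W2b (l : (Fin n ⊕ Fin n) ⊕ Fin (n + n) → ℂˣ) (s : Fin n × Fin (n + n))
    (h : ¬ (s.2 : ℕ) < n) :
    ((∏ r, l r ^ W2 s r : ℂˣ) : ℂ) =
      (l (Sum.inl (Sum.inr s.1)) : ℂ) * ((l (Sum.inr s.2))⁻¹ : ℂˣ) := by
  rw [← Units.val_mul]
  congr 1
  rw [Fintype.prod_sum_type, Fintype.prod_sum_type]
  have h1 : (∏ i : Fin n, l (Sum.inl (Sum.inr i)) ^ W2 s (Sum.inl (Sum.inr i))) =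
      l (Sum.inl (Sum.inr s.1)) := by
    rw [Finset.prod_eq_single s.1]
    · simp [W2, h]
    · intro b _ hb
      simp [W2, hb]
    · intro h
      exact absurd (Finset.mem_univ _) h
  have h3 : (∏ i : Fin n, l (Sum.inl (Sum.inl i)) ^ W2 s (Sum.inl (Sum.inl i))) = 1 := by
    refine Finset.prod_eq_one fun i _ => ?_
    simp [W2, h]
  have h2 : (∏ j : Fin (n + n), l (Sum.inr j) ^ W2 s (Sum.inr j)) = (l (Sum.inr s.2))⁻¹ := by
    rw [Finset.prod_eq_single s.2]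
    · simp [W2]
    · intro b _ hb
      simp [W2, hb]
    · intro h
      exact absurd (Finset.mem_univ _) h
  rw [h1, h2, h3, one_mul]

end ORB2

open Blk ORB2 in
theorem t_ORB2 (hPAR : S_PAR) (hTOR : S_TOR) (hSTB : S_STB) (hPRD : S_PRD) (hOPR : S_OPR)
    (hOTO : S_OTO) (hOST : S_OST) : S_ORB2 := by
  intro n c c' _ _
  rw [Orb2_eq]
  have hst : ∀ g : Fin n × Fin (n + n) → Option (Fin n × Fin (n + n)),
      (∀ (t : ℂ) (z : Fin n × Fin (n + n) → ℂ), bl1 z ∈ Orb c → bl2 z ∈ Orb c' →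
        bl1 (act g t z) ∈ Orb c ∧ bl2 (act g t z) ∈ Orb c') →
      Stab g (van (Two (Orb c) (Orb c'))) := fun g h =>
    (hSTB _ g (Two (Orb c) (Orb c'))).1 fun t z hz => h t z hz.1 hz.2
  refine ⟨(hPAR _ _ _ _ (hPRD n _ _ _ _ _ _ (hOPR n n c) (hOPR n n c'))).2, ?_, ?_, ?_, ?_⟩
  · refine hTOR _ _ W2 (Two (Orb c) (Orb c')) fun l z hz => ⟨?_, ?_⟩
    · have h := hOTO n n c (fun i => (l (Sum.inl (Sum.inl i)) : ℂ))
        (fun j => (((l (Sum.inr (Fin.castAdd n j)))⁻¹ : ℂˣ) : ℂ))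
        (fun i => (l _).ne_zero) (fun j => ((l _)⁻¹).ne_zero) _ hz.1
      convert h using 1
      funext s
      beta_reduce
      rw [prod_W2a l (s.1, Fin.castAdd n s.2) (by rw [Fin.val_castAdd]; exact s.2.2)]
    · have h := hOTO n n c' (fun i => (l (Sum.inl (Sum.inr i)) : ℂ))
        (fun j => (((l (Sum.inr (Fin.natAdd n j)))⁻¹ : ℂˣ) : ℂ))
        (fun i => (l _).ne_zero) (fun j => ((l _)⁻¹).ne_zero) _ hz.2
      convert h using 1
      funext s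
      beta_reduce
      rw [prod_W2b l (s.1, Fin.natAdd n s.2) (by rw [Fin.val_natAdd]; omega)]
  · refine hTOR _ _ Wm (Two (Orb c) (Orb c')) fun l z hz => ⟨?_, ?_⟩
    · have h := hOTO n n c (fun i => (l (Sum.inl i) : ℂ))
        (fun j => (((l (Sum.inr (Fin.castAdd n j)))⁻¹ : ℂˣ) : ℂ))
        (fun i => (l _).ne_zero) (fun j => ((l _)⁻¹).ne_zero) _ hz.1
      convert h using 1
      funext s
      beta_reduce
      rw [prod_Wm l (s.1, Fin.castAdd n s.2)]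
    · have h := hOTO n n c' (fun i => (l (Sum.inl i) : ℂ))
        (fun j => (((l (Sum.inr (Fin.natAdd n j)))⁻¹ : ℂˣ) : ℂ))
        (fun i => (l _).ne_zero) (fun j => ((l _)⁻¹).ne_zero) _ hz.2
      convert h using 1
      funext s
      beta_reduce
      rw [prod_Wm l (s.1, Fin.natAdd n s.2)]
  · intro a b hab
    refine ⟨hst _ fun t z h1 h2 => ?_, hst _ fun t z h1 h2 => ?_, hst _ fun t z h1 h2 => ?_⟩
    · rw [bl1_rgC, bl2_rgC]
      exact ⟨(hOST n n c t _ h1).1 a b hab, h2⟩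
    · rw [bl1_rgA, bl2_rgA]
      exact ⟨h1, (hOST n n c' t _ h2).1 a b hab⟩
    · rw [bl1_rg, bl2_rg]
      exact ⟨(hOST n n c t _ h1).1 a b hab, (hOST n n c' t _ h2).1 a b hab⟩
  · intro a b hab
    refine ⟨hst _ fun t z h1 h2 => ?_, hst _ fun t z h1 h2 => ?_⟩
    · rw [bl1_cgC, bl2_cgC]
      exact ⟨(hOST n n c t _ h1).2 a b hab, h2⟩
    · rw [bl1_cgA, bl2_cgA]
      exact ⟨h1, (hOST n n c' t _ h2).2 a b hab⟩

end Pool.Agent.KIR.S4b
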