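import Pool.Agent.KIR.S4b.Stm

/-!
# Piece OST: triangular operations on orbits
-/

set_option autoImplicit false

namespace Pool.Agent.KIR.S4b

open MvPolynomial Filter Topology Pool.Agent.KIR

theorem t_OST : S_OST := by
  intro n m c t z hz
  obtain ⟨b0, b', h1, h2, h3, h4, h5⟩ := hz
  constructor
  · intro a b hab
    refine ⟨fun i k => b0 i k + if i = b then t * b0 a k else 0, b', ?_, ?_, h3, h4, ?_⟩
    · intro i j hij
      show b0 i j + (if i = b then t * b0 a j else 0) = 0
      rw [h1 i j hij, zero_add]
      split_ifs with hib
      · subst hib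
        rw [h1 a j (hab.trans hij), mul_zero]
      · rfl
    · intro i
      show b0 i i + (if i = b then t * b0 a i else 0) ≠ 0
      split_ifs with hib
      · subst hib
        rw [h1 a i hab, mul_zero, add_zero]
        exact h2 i
      · rw [add_zero]
        exact h2 i
    · intro s
      obtain ⟨N, hN⟩ : ∃ N : Matrix (Fin n) (Fin m) ℂ, N = Mc c * b' := ⟨_, rfl⟩
      have h6 : ∀ s : Fin n × Fin m, z s = ∑ l, b0 s.1 l * N l s.2 := by
        intro s
        rw [h5 s, Matrix.mul_assoc, ← hN, Matrix.mul_apply]
      rw [Matrix.mul_assoc, ← hN, Matrix.mul_apply]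
      show z s + t * (rg b a s).elim 0 z = ∑ l, (b0 s.1 l + (if s.1 = b then t * b0 a l else 0)) * N l s.2
      unfold rg
      split_ifs with hsb
      · show z s + t * z (a, s.2) = _
        rw [h6 s, h6 (a, s.2), Finset.mul_sum, ← Finset.sum_add_distrib]
        refine Finset.sum_congr rfl fun l _ => ?_
        ring
      · show z s + t * 0 = _
        rw [h6 s, mul_zero, add_zero]
        refine Finset.sum_congr rfl fun l _ => ?_
        ring
  · intro a b hab
    refine ⟨b0, fun i k => b' i k + if k = b then t * b' i a else 0, h1, h2, ?_, ?_, ?_⟩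
    · intro i j hij
      show b' i j + (if j = b then t * b' i a else 0) = 0
      rw [h3 i j hij, zero_add]
      split_ifs with hib
      · subst hib
        rw [h3 i a (hab.trans hij), mul_zero]
      · rfl
    · intro i
      show b' i i + (if i = b then t * b' i a else 0) ≠ 0
      split_ifs with hib
      · subst hib
        rw [h3 i a hab, mul_zero, add_zero]
        exact h4 i
      · rw [add_zero]
        exact h4 i
    · intro s
      obtain ⟨N, hN⟩ : ∃ N : Matrix (Fin n) (Fin m) ℂ, N = b0 * Mc c := ⟨_, rfl⟩
      have h6 : ∀ s : Fin n × Fin m, z s = ∑ l, N s.1 l * b' l s.2 := by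
        intro s
        rw [h5 s, ← hN, Matrix.mul_apply]
      rw [← hN, Matrix.mul_apply]
      show z s + t * (cg a b s).elim 0 z = ∑ l, N s.1 l * (b' l s.2 + (if s.2 = b then t * b' l a else 0))
      unfold cg
      split_ifs with hsb
      · show z s + t * z (s.1, a) = _
        rw [h6 s, h6 (s.1, a), Finset.mul_sum, ← Finset.sum_add_distrib]
        refine Finset.sum_congr rfl fun l _ => ?_
        ring
      · show z s + t * 0 = _
        rw [h6 s, mul_zero, add_zero]
        refine Finset.sum_congr rfl fun l _ => ?_
        ring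

end Pool.Agent.KIR.S4b
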