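import Pool.Agent.KIR.S4b.Stm
/-!
# KIR, section S4b, piece OTO (helper84): the torus acts on the orbits
-/
set_option autoImplicit false
namespace Pool.Agent.KIR.S4b
open MvPolynomial Filter Topology Pool.Agent.KIR

theorem t_OTO : S_OTO := by
  rintro n m c x y hx hy z ⟨b, b', h1, h2, h3, h4, h5⟩
  refine ⟨Matrix.diagonal x * b, b' * Matrix.diagonal y, ?_, ?_, ?_, ?_, ?_⟩
  · intro i j hij
    rw [Matrix.diagonal_mul, h1 i j hij, mul_zero]
  · intro i
    rw [Matrix.diagonal_mul]
    exact mul_ne_zero (hx i) (h2 i)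
  · intro i j hij
    rw [Matrix.mul_diagonal, h3 i j hij, zero_mul]
  · intro i
    rw [Matrix.mul_diagonal]
    exact mul_ne_zero (h4 i) (hy i)
  · intro s
    have h6 : Matrix.diagonal x * b * Mc c * (b' * Matrix.diagonal y) =
        Matrix.diagonal x * (b * Mc c * b') * Matrix.diagonal y := by
      simp only [Matrix.mul_assoc]
    rw [h6, Matrix.mul_diagonal, Matrix.diagonal_mul]
    simp only [h5]
    ring

end Pool.Agent.KIR.S4b
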