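import Pool.Agent.KIR.S4b.Stm

/-!
# Project KIR, section S4b, piece PAR (helper12)
-/

set_option autoImplicit false

namespace Pool.Agent.KIR.S4b

open MvPolynomial Filter Topology Pool.Agent.KIR

theorem t_PAR : S_PAR := by
  intro σ τ V φ ⟨hp, h, hh, hV⟩
  have key : ∀ (y : τ → ℂ) (f : S σ), eval (ev φ y) f = eval y (aeval φ f) := by
    intro y f
    induction f using MvPolynomial.induction_on with
    | C a => simp
    | add p q hp hq => rw [map_add, map_add, map_add, hp, hq]
    | mul_X p s hp =>
      rw [map_mul, map_mul, map_mul, hp]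
      simp [ev]
  have h1 : van V = RingHom.ker (aeval φ : S σ →ₐ[ℂ] S τ) := by
    ext f
    rw [RingHom.mem_ker]
    constructor
    · intro hf
      have h2 : h * aeval φ f = 0 := by
        apply MvPolynomial.funext
        intro y
        rw [map_mul, map_zero]
        by_cases hy : eval y h = 0
        · rw [hy, zero_mul]
        · rw [← key, hf _ (hV y hy), mul_zero]
      exact (mul_eq_zero.1 h2).resolve_left hh
    · intro hf z hz
      obtain ⟨y, rfl⟩ := hp z hz
      rw [key, hf, map_zero]
  refine ⟨h1, ?_⟩
  rw [h1]
  exact RingHom.ker_isPrime _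

end Pool.Agent.KIR.S4b
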