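import Pool.Agent.KIR.S4b.Stm

/-!
# KIR S4b, piece STB (helper33): stability of vanishing ideals
-/

set_option autoImplicit false

namespace Pool.Agent.KIR.S4b

open MvPolynomial Filter Topology Pool.Agent.KIR

namespace STB

variable {σ : Type}

/-- the value of `f` at the moved point is the value of the polynomial `op g f` -/
theorem ev_act (g : σ → Option σ) (t : ℂ) (z : σ → ℂ) (f : S σ) :
    eval (act g t z) f = ((op g f).map (eval z)).eval t := by
  have h : (eval (act g t z) : S σ →+* ℂ) = (Polynomial.evalRingHom t).comp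
      ((Polynomial.mapRingHom (eval z)).comp ((op g : S σ →ₐ[ℂ] Polynomial (S σ)) :
        S σ →+* Polynomial (S σ))) := by
    refine MvPolynomial.ringHom_ext (fun a => ?_) (fun s => ?_)
    · have h1 : op g (C a) = Polynomial.C (C a) := by
        have h2 : (C a : S σ) = algebraMap ℂ (S σ) a := rfl
        rw [h2, AlgHom.commutes]
        rfl
      simp only [RingHom.comp_apply, RingHom.coe_coe, h1, eval_C, Polynomial.coe_mapRingHom,
        Polynomial.map_C, Polynomial.coe_evalRingHom, Polynomial.eval_C]
    · have h1 : op g (X s) = Polynomial.C (X s) +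
          Polynomial.X * ((g s).elim 0 (fun s' => Polynomial.C (X s'))) := by
        unfold op
        rw [aeval_X]
      simp only [RingHom.comp_apply, RingHom.coe_coe, h1, eval_X, Polynomial.coe_mapRingHom,
        Polynomial.coe_evalRingHom]
      unfold act
      cases hg : g s with
      | none => simp
      | some s' =>
        simp
        ring
  exact congrArg (fun r : S σ →+* ℂ => r f) h

theorem coeff_iff (g : σ → Option σ) (z : σ → ℂ) (f : S σ) :
    (∀ k, eval z ((op g f).coeff k) = 0) ↔ ∀ t, eval (act g t z) f = 0 := by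
  constructor
  · intro h t
    have h1 : (op g f).map (eval z) = 0 := by
      ext k
      rw [Polynomial.coeff_map, h k, Polynomial.coeff_zero]
    rw [ev_act, h1, Polynomial.eval_zero]
  · intro h k
    have h1 : (op g f).map (eval z) = 0 := by
      refine Polynomial.funext fun t => ?_
      rw [← ev_act, h t, Polynomial.eval_zero]
    rw [← Polynomial.coeff_map, h1, Polynomial.coeff_zero]

theorem mem_PZ (g : σ → Option σ) (P : Ideal (S σ)) (f : S σ) :
    f ∈ PZ g P ↔ ∀ k, (op g f).coeff k ∈ P := by
  have h0 : opm g P f = (op g f).map (Ideal.Quotient.mk P) := rfl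
  unfold PZ
  rw [RingHom.mem_ker, h0, Polynomial.ext_iff]
  refine forall_congr' fun k => ?_
  rw [Polynomial.coeff_map, Polynomial.coeff_zero, Ideal.Quotient.eq_zero_iff_mem]

theorem mem_van (V : Set (σ → ℂ)) (f : S σ) : f ∈ van V ↔ ∀ z ∈ V, eval z f = 0 := Iff.rfl

end STB

open STB in
theorem t_STB : S_STB := by
  intro σ g V
  refine ⟨fun h f hf k z hz => ?_, fun h t z hz f hf => ?_, ?_⟩
  · exact (coeff_iff g z f).2 (fun t => hf _ (h t z hz)) k
  · exact (coeff_iff g z f).1 (fun k => h f hf k z hz) t
  · ext f
    rw [mem_PZ, mem_van]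
    constructor
    · rintro h z' ⟨t, z, hz, rfl⟩
      exact (coeff_iff g z f).1 (fun k => h k z hz) t
    · intro h k z hz
      exact (coeff_iff g z f).2 (fun t => h _ ⟨t, z, hz, rfl⟩) k

end Pool.Agent.KIR.S4b
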