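import Pool.Agent.KIR.S4b.Stm

/-!
# PROJECT KIR, piece S4b.STEP (helper46): one step in the Bruhat order
-/

set_option autoImplicit false

namespace Pool.Agent.KIR.S4b

open MvPolynomial Filter Topology Pool.Agent.KIR

theorem t_STEP (hPAR : S_PAR) (hSTB : S_STB) (hOPP : S_OPP) (hOPU : S_OPU) (hMNR : S_MNR) :
    S_STEP := by
  intro n m c i j hc hij hpos
  obtain ⟨-, hst, hpz⟩ := hSTB _ (rg i j) (Orb c)
  have h1 := (hPAR _ _ _ _ (hOPP n m c i j hc hij hpos)).1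
  have h2 := (hPAR _ _ _ _ (hOPU n m c i j hij)).1
  have hPZ : PZ (rg i j) (van (Orb c)) = van (Orb (c ∘ Equiv.swap i j)) := by
    rw [hpz, h2, h1]
  refine ⟨fun hs => ?_, hPZ⟩
  obtain ⟨f, hf, hf0⟩ := hMNR n m c i j hc hij hpos
  have hmem : f ∈ PZ (rg i j) (van (Orb c)) := by
    rw [hpz]
    rintro z' ⟨t, z, hz, rfl⟩
    exact hst hs t z hz f hf
  rw [hPZ] at hmem
  refine hf0 (hmem _ ?_)
  refine ⟨1, 1, ?_, ?_, ?_, ?_, ?_⟩
  · intro a b hab
    exact Matrix.one_apply_ne hab.ne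
  · intro a
    simp
  · intro a b hab
    exact Matrix.one_apply_ne hab.ne'
  · intro a
    simp
  · intro s
    simp

end Pool.Agent.KIR.S4b
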