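import Pool.Agent.KIR.S4b.Blk

/-!
# KIR S4b, piece A5 (STEP2) (helper91): one step in one of the two blocks
-/

set_option autoImplicit false

namespace Pool.Agent.KIR.S4b

open MvPolynomial Filter Topology Pool.Agent.KIR

namespace STEP2

open Blk

variable {n : ℕ}

theorem trC (V V' : Set (Fin n × Fin n → ℂ)) (i j : Fin n) :
    {z' | ∃ t, ∃ z ∈ Two V V', z' = act (rgC i j) t z} =
      Two {z' | ∃ t, ∃ z ∈ V, z' = act (rg i j) t z} V' := by
  ext z'
  constructor
  · rintro ⟨t, z, hz, rfl⟩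
    refine ⟨⟨t, bl1 z, hz.1, bl1_rgC i j t z⟩, ?_⟩
    have h : bl2 (act (rgC i j) t z) ∈ V' := by
      rw [bl2_rgC]
      exact hz.2
    exact h
  · rintro ⟨⟨t, z1, hz1, h1⟩, h2⟩
    refine ⟨t, join z1 (bl2 z'), ⟨?_, ?_⟩, ?_⟩
    · have h : bl1 (join z1 (bl2 z')) ∈ V := by
        rw [bl1_join]
        exact hz1
      exact h
    · have h : bl2 (join z1 (bl2 z')) ∈ V' := by
        rw [bl2_join]
        exact h2
      exact h
    · refine ext2 ?_ ?_
      · rw [bl1_rgC, bl1_join]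
        exact h1
      · rw [bl2_rgC, bl2_join]

theorem trA (V V' : Set (Fin n × Fin n → ℂ)) (i j : Fin n) :
    {z' | ∃ t, ∃ z ∈ Two V V', z' = act (rgA i j) t z} =
      Two V {z' | ∃ t, ∃ z ∈ V', z' = act (rg i j) t z} := by
  ext z'
  constructor
  · rintro ⟨t, z, hz, rfl⟩
    refine ⟨?_, ⟨t, bl2 z, hz.2, bl2_rgA i j t z⟩⟩
    have h : bl1 (act (rgA i j) t z) ∈ V := by
      rw [bl1_rgA]
      exact hz.1
    exact h
  · rintro ⟨h2, ⟨t, z1, hz1, h1⟩⟩
    refine ⟨t, join (bl1 z') z1, ⟨?_, ?_⟩, ?_⟩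
    · have h : bl1 (join (bl1 z') z1) ∈ V := by
        rw [bl1_join]
        exact h2
      exact h
    · have h : bl2 (join (bl1 z') z1) ∈ V' := by
        rw [bl2_join]
        exact hz1
      exact h
    · refine ext2 ?_ ?_
      · rw [bl1_rgA, bl1_join]
      · rw [bl2_rgA, bl2_join]
        exact h1

theorem ev1 (z : Fin n × Fin (n + n) → ℂ) (f : S (Fin n × Fin n)) :
    eval z (rename (fun s : Fin n × Fin n => (s.1, Fin.castAdd n s.2)) f) = eval (bl1 z) f := by
  rw [eval_rename]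
  rfl

theorem ev2 (z : Fin n × Fin (n + n) → ℂ) (f : S (Fin n × Fin n)) :
    eval z (rename (fun s : Fin n × Fin n => (s.1, Fin.natAdd n s.2)) f) = eval (bl2 z) f := by
  rw [eval_rename]
  rfl

end STEP2

open Blk STEP2 in
theorem t_STEP2 (hPAR : S_PAR) (hSTB : S_STB) (hPRD : S_PRD) (hOPR : S_OPR) (hOPP : S_OPP)
    (hOPU : S_OPU) (hMNR : S_MNR) : S_STEP2 := by
  intro n c c' i j hc hc' hij
  refine ⟨fun hpos => ?_, fun hpos => ?_⟩
  · rw [Orb2_eq, Orb2_eq]
    obtain ⟨-, hst, hpz⟩ := hSTB _ (rgC i j) (Two (Orb c) (Orb c'))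
    have h1 := (hPAR _ _ _ _ (hPRD n _ _ _ _ _ _ (hOPP n n c i j hc hij hpos)
      (hOPR n n c'))).1
    have h2 := (hPAR _ _ _ _ (hPRD n _ _ _ _ _ _ (hOPU n n c i j hij) (hOPR n n c'))).1
    have hPZ : PZ (rgC i j) (van (Two (Orb c) (Orb c'))) =
        van (Two (Orb (c ∘ Equiv.swap i j)) (Orb c')) := by
      rw [hpz, trC, h2, h1]
    refine ⟨fun hs => ?_, hPZ⟩
    obtain ⟨f, hf, hf0⟩ := hMNR n n c i j hc hij hpos
    have hF : rename (fun s : Fin n × Fin n => (s.1, Fin.castAdd n s.2)) f ∈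
        van (Two (Orb c) (Orb c')) := by
      intro z hz
      rw [ev1]
      exact hf _ hz.1
    have hmem : rename (fun s : Fin n × Fin n => (s.1, Fin.castAdd n s.2)) f ∈
        PZ (rgC i j) (van (Two (Orb c) (Orb c'))) := by
      rw [hpz]
      rintro z' ⟨t, z, hz, rfl⟩
      exact hst hs t z hz _ hF
    rw [hPZ] at hmem
    refine hf0 ?_
    have h3 := hmem (join (fun s => Mc (c ∘ Equiv.swap i j) s.1 s.2) (fun s => Mc c' s.1 s.2))
      ⟨by
        have h : bl1 (join (fun s => Mc (c ∘ Equiv.swap i j) s.1 s.2) (fun s => Mc c' s.1 s.2)) ∈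
            Orb (c ∘ Equiv.swap i j) := by
          rw [bl1_join]
          exact mc_mem _
        exact h, by
        have h : bl2 (join (fun s => Mc (c ∘ Equiv.swap i j) s.1 s.2) (fun s => Mc c' s.1 s.2)) ∈
            Orb c' := by
          rw [bl2_join]
          exact mc_mem _
        exact h⟩
    rw [ev1, bl1_join] at h3
    exact h3
  · rw [Orb2_eq, Orb2_eq]
    obtain ⟨-, hst, hpz⟩ := hSTB _ (rgA i j) (Two (Orb c) (Orb c'))
    have h1 := (hPAR _ _ _ _ (hPRD n _ _ _ _ _ _ (hOPR n n c)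
      (hOPP n n c' i j hc' hij hpos))).1
    have h2 := (hPAR _ _ _ _ (hPRD n _ _ _ _ _ _ (hOPR n n c) (hOPU n n c' i j hij))).1
    have hPZ : PZ (rgA i j) (van (Two (Orb c) (Orb c'))) =
        van (Two (Orb c) (Orb (c' ∘ Equiv.swap i j))) := by
      rw [hpz, trA, h2, h1]
    refine ⟨fun hs => ?_, hPZ⟩
    obtain ⟨f, hf, hf0⟩ := hMNR n n c' i j hc' hij hpos
    have hF : rename (fun s : Fin n × Fin n => (s.1, Fin.natAdd n s.2)) f ∈
        van (Two (Orb c) (Orb c')) := by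
      intro z hz
      rw [ev2]
      exact hf _ hz.2
    have hmem : rename (fun s : Fin n × Fin n => (s.1, Fin.natAdd n s.2)) f ∈
        PZ (rgA i j) (van (Two (Orb c) (Orb c'))) := by
      rw [hpz]
      rintro z' ⟨t, z, hz, rfl⟩
      exact hst hs t z hz _ hF
    rw [hPZ] at hmem
    refine hf0 ?_
    have h3 := hmem (join (fun s => Mc c s.1 s.2) (fun s => Mc (c' ∘ Equiv.swap i j) s.1 s.2))
      ⟨by
        have h : bl1 (join (fun s => Mc c s.1 s.2) (fun s => Mc (c' ∘ Equiv.swap i j) s.1 s.2)) ∈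
            Orb c := by
          rw [bl1_join]
          exact mc_mem _
        exact h, by
        have h : bl2 (join (fun s => Mc c s.1 s.2) (fun s => Mc (c' ∘ Equiv.swap i j) s.1 s.2)) ∈
            Orb (c' ∘ Equiv.swap i j) := by
          rw [bl2_join]
          exact mc_mem _
        exact h⟩
    rw [ev2, bl2_join] at h3
    exact h3

end Pool.Agent.KIR.S4b
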