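import Pool.Agent.KIR.S4b.Stm

/-!
# PROJECT KIR, section S4b, piece TOP (helper72): the linear ideals on top
-/

set_option autoImplicit false

namespace Pool.Agent.KIR.S4b

open MvPolynomial Filter Topology Pool.Agent.KIR

theorem t_TOP (hPAR : S_PAR) (hLIN : S_LIN) (hHSV : S_HSV) (hTPV : S_TPV) : S_TOP := by
  intro n m c hc hd p hp
  have hv : van (Orb c) = (Ideal.span (X '' ((Zb c : Finset (Fin n × Fin m)) : Set (Fin n × Fin m))) :
      Ideal (S (Fin n × Fin m))) := by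
    rw [(hPAR _ _ _ _ (hTPV n m c hc hd)).1]
    exact hLIN _ _ (Zb c) id Function.injective_id
  have hw : ∀ s, 0 < wt (Wm (n := n) (m := m)) p s := fun s => by
    have := hp s
    unfold wt
    omega
  have hw' : ∀ s, ((wt (Wm (n := n) (m := m)) p s : ℕ) : ℝ) = (pair (Wm s) p : ℝ) := fun s => by
    have h1 : ((wt (Wm (n := n) (m := m)) p s : ℕ) : ℤ) = pair (Wm s) p :=
      Int.toNat_of_nonneg (hp s).le
    exact_mod_cast congrArg (fun z : ℤ => (z : ℝ)) h1
  obtain ⟨h1, h2⟩ := hHSV _ _ hw (Zb c)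
  rw [hv]
  refine ⟨h1, ?_⟩
  rw [h2]
  exact Finset.prod_congr rfl fun s _ => hw' s

end Pool.Agent.KIR.S4b
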