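import Pool.Agent.KIR.S4b.Stm

/-!
# KIR S4b, assembly TOP2 (helper70)
-/

set_option autoImplicit false

namespace Pool.Agent.KIR.S4b

open MvPolynomial Filter Topology Pool.Agent.KIR

namespace TOP2P

variable {n : ℕ}

/-- The boxes. -/
def ZZ (n : ℕ) : Finset (Fin n × Fin (n + n)) :=
  Finset.univ.filter (fun s : Fin n × Fin (n + n) =>
      ((s.2 : ℕ) < n ∧ (s.1 : ℕ) + s.2 + 1 < n) ∨ (n ≤ (s.2 : ℕ) ∧ (s.1 : ℕ) + s.2 + 1 < n + n))

/-- The embedding of the variables. -/
def em (s : Fin n × Fin (n + n)) : (Fin n × Fin n) ⊕ (Fin n × Fin n) :=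
  Fin.addCases (fun j => Sum.inl (s.1, j)) (fun j => Sum.inr (s.1, j)) s.2

lemma em_inj : Function.Injective (em (n := n)) := by
  rintro ⟨i, x⟩ ⟨i', x'⟩ h
  induction x using Fin.addCases with
  | left j =>
    induction x' using Fin.addCases with
    | left j' =>
      simp only [em, Fin.addCases_left, Sum.inl.injEq, Prod.mk.injEq] at h
      rw [h.1, h.2]
    | right j' =>
      simp only [em, Fin.addCases_left, Fin.addCases_right] at h
      exact absurd h (by simp)
  | right j =>
    induction x' using Fin.addCases with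
    | left j' =>
      simp only [em, Fin.addCases_left, Fin.addCases_right] at h
      exact absurd h (by simp)
    | right j' =>
      simp only [em, Fin.addCases_right, Sum.inr.injEq, Prod.mk.injEq] at h
      rw [h.1, h.2]

lemma mem_Zb (s : Fin n × Fin n) :
    s ∈ Zb (fun i : Fin n => some (Fin.revPerm i)) ↔ (s.1 : ℕ) + s.2 + 1 < n := by
  unfold Zb
  rw [Finset.mem_filter]
  have h1 : pos (some (Fin.revPerm s.1)) = n - ((s.1 : ℕ) + 1) := by
    show ((Fin.revPerm s.1 : Fin n) : ℕ) = _
    rw [Fin.revPerm_apply, Fin.val_rev]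
  have h2 := s.1.2
  have h3 := s.2.2
  simp only [Finset.mem_univ, true_and, h1]
  omega

lemma two_eq : two (fun s : Fin n × Fin n => if s ∈ Zb (fun i : Fin n => some (Fin.revPerm i))
      then (0 : S (Fin n × Fin n)) else X s)
      (fun s : Fin n × Fin n => if s ∈ Zb (fun i : Fin n => some (Fin.revPerm i))
      then (0 : S (Fin n × Fin n)) else X s) =
    fun s => if s ∈ ZZ n then 0 else X (em s) := by
  funext s
  obtain ⟨i, x⟩ := s
  have hi := i.2
  induction x using Fin.addCases with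
  | left j =>
    have hj := j.2
    have h1 : ((i, Fin.castAdd n j) : Fin n × Fin (n + n)) ∈ ZZ n ↔
        (i, j) ∈ Zb (fun i : Fin n => some (Fin.revPerm i)) := by
      rw [mem_Zb]
      unfold ZZ
      rw [Finset.mem_filter]
      simp only [Finset.mem_univ, true_and, Fin.val_castAdd]
      omega
    simp only [two, em, Fin.addCases_left]
    by_cases h : (i, j) ∈ Zb (fun i : Fin n => some (Fin.revPerm i))
    · rw [if_pos h, if_pos (h1.2 h), map_zero]
    · rw [if_neg h, if_neg (fun h2 => h (h1.1 h2)), rename_X]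
  | right j =>
    have hj := j.2
    have h1 : ((i, Fin.natAdd n j) : Fin n × Fin (n + n)) ∈ ZZ n ↔
        (i, j) ∈ Zb (fun i : Fin n => some (Fin.revPerm i)) := by
      rw [mem_Zb]
      unfold ZZ
      rw [Finset.mem_filter]
      simp only [Finset.mem_univ, true_and, Fin.val_natAdd]
      omega
    simp only [two, em, Fin.addCases_right]
    by_cases h : (i, j) ∈ Zb (fun i : Fin n => some (Fin.revPerm i))
    · rw [if_pos h, if_pos (h1.2 h), map_zero]
    · rw [if_neg h, if_neg (fun h2 => h (h1.1 h2)), rename_X]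

lemma pinj : PInj (fun i : Fin n => some (Fin.revPerm i)) := by
  intro i i' j h1 h2
  have h3 : Fin.revPerm i = Fin.revPerm i' := Option.some.inj (h1.trans h2.symm)
  exact Fin.revPerm.injective h3

lemma dec : Dec (fun i : Fin n => some (Fin.revPerm i)) := by
  intro i i' h
  left
  have h1 : ∀ i : Fin n, pos (some (Fin.revPerm i)) = n - ((i : ℕ) + 1) := by
    intro i
    show ((Fin.revPerm i : Fin n) : ℕ) = _
    rw [Fin.revPerm_apply, Fin.val_rev]
  rw [h1, h1]
  rw [Fin.lt_def] at h
  have := i'.2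
  omega

end TOP2P

open TOP2P in
theorem t_TOP2 (hPAR : S_PAR) (hPRD : S_PRD) (hLIN : S_LIN) (hHSV : S_HSV) (hTPV : S_TPV)
    (hCNT : S_CNT) : S_TOP2 := by
  intro n p hp
  have h1 := hTPV n n _ (pinj (n := n)) dec
  have h2 := hPRD n _ _ _ _ _ _ h1 h1
  have h3 := (hPAR _ _ _ _ h2).1
  rw [two_eq] at h3
  rw [hLIN _ _ (ZZ n) em em_inj] at h3
  have hw : ∀ s : Fin n × Fin (n + n), 0 < wt W2 p s := fun s => by
    have := hp s
    unfold wt
    omega
  have h4 := hHSV _ (wt W2 p) hw (ZZ n)
  have h5 : (ZZ n).card = n * (n - 1) := hCNT n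
  rw [h5] at h4
  rw [Orb2_eq, h3]
  refine ⟨h4.1, h4.2.trans ?_⟩
  refine Finset.prod_congr rfl fun s _ => ?_
  have h6 : ((wt W2 p s : ℕ) : ℤ) = pair (W2 s) p := by
    unfold wt
    exact Int.toNat_of_nonneg (hp s).le
  rw [← h6]
  push_cast
  rfl

end Pool.Agent.KIR.S4b
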