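import Pool.Agent.KIR.S4b.Stm

/-!
# Project KIR, section S4b, piece TOR (helper12)
-/

set_option autoImplicit false

namespace Pool.Agent.KIR.S4b

open MvPolynomial Filter Topology Pool.Agent.KIR

namespace TOR

noncomputable def chi {ρ : Type} [Fintype ρ] (d : ρ → ℤ) : (ρ → ℂˣ) →* ℂ where
  toFun l := ((∏ r, l r ^ d r : ℂˣ) : ℂ)
  map_one' := by simp
  map_mul' l l' := by
    simp only [Pi.mul_apply, mul_zpow, Finset.prod_mul_distrib, Units.val_mul]

theorem chi_apply {ρ : Type} [Fintype ρ] (d : ρ → ℤ) (l : ρ → ℂˣ) :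
    chi d l = ((∏ r, l r ^ d r : ℂˣ) : ℂ) := rfl

theorem chi_inj {ρ : Type} [Fintype ρ] : Function.Injective (chi (ρ := ρ)) := by
  classical
  intro d d' h
  funext r
  have h1 := DFunLike.congr_fun h (Pi.mulSingle r (Units.mk0 (2:ℂ) two_ne_zero))
  have h2 : ∀ e : ρ → ℤ, chi e (Pi.mulSingle r (Units.mk0 (2:ℂ) two_ne_zero)) = (2:ℂ) ^ e r := by
    intro e
    rw [chi_apply, Finset.prod_eq_single r]
    · rw [Pi.mulSingle_eq_same, Units.val_zpow_eq_zpow_val, Units.val_mk0]
    · intro b _ hb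
      rw [Pi.mulSingle_eq_of_ne hb, one_zpow]
    · intro h
      exact absurd (Finset.mem_univ _) h
  rw [h2, h2] at h1
  have h3 := congrArg norm h1
  have h4 : ‖(2:ℂ)‖ = 2 := by simp
  rw [norm_zpow, norm_zpow, h4] at h3
  exact zpow_right_injective₀ (by norm_num) (by norm_num) h3

theorem chi_add {ρ : Type} [Fintype ρ] (d d' : ρ → ℤ) (l : ρ → ℂˣ) :
    chi (d + d') l = chi d l * chi d' l := by
  simp only [chi_apply, Pi.add_apply, zpow_add, Finset.prod_mul_distrib, Units.val_mul]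

theorem chi_zero {ρ : Type} [Fintype ρ] (l : ρ → ℂˣ) : chi (0 : ρ → ℤ) l = 1 := by
  simp [chi_apply]

theorem chi_nsmul {ρ : Type} [Fintype ρ] (k : ℕ) (d : ρ → ℤ) (l : ρ → ℂˣ) :
    chi (k • d) l = chi d l ^ k := by
  induction k with
  | zero => rw [zero_nsmul, pow_zero, chi_zero]
  | succ k ih => rw [succ_nsmul, pow_succ, chi_add, ih]

theorem chi_sum {σ ρ : Type} [Fintype ρ] (W : σ → ρ → ℤ) (k : σ → ℕ) (l : ρ → ℂˣ) (T : Finset σ) :
    chi (∑ s ∈ T, k s • W s) l = ∏ s ∈ T, (chi (W s) l) ^ k s := by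
  classical
  induction T using Finset.induction_on with
  | empty => rw [Finset.sum_empty, Finset.prod_empty, chi_zero]
  | insert a T ha ih =>
    rw [Finset.sum_insert ha, Finset.prod_insert ha, chi_add, ih, chi_nsmul]

theorem mono {σ ρ : Type} [Fintype ρ] (W : σ → ρ → ℤ) (l : ρ → ℂˣ) (z : σ → ℂ) (m : σ →₀ ℕ) :
    ∏ s ∈ m.support, (((∏ r, l r ^ W s r : ℂˣ) : ℂ) * z s) ^ m s =
      (m.prod fun s e => z s ^ e) * chi (Finsupp.weight W m) l := by
  rw [Finsupp.weight_apply, Finsupp.sum, chi_sum, Finsupp.prod, ← Finset.prod_mul_distrib]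
  refine Finset.prod_congr rfl fun s _ => ?_
  rw [mul_pow, mul_comm, chi_apply]

end TOR

open TOR in
theorem t_TOR : S_TOR := by
  classical
  intro σ ρ _ W V hV f hf d0 z hz
  have hc : ∀ d, eval z (weightedHomogeneousComponent W d f) =
      ∑ m ∈ f.support with Finsupp.weight W m = d, coeff m f * m.prod fun s e => z s ^ e := by
    intro d
    rw [weightedHomogeneousComponent_apply, map_sum]
    simp only [eval_monomial]
  have hl : ∀ l : ρ → ℂˣ, ∑ d ∈ f.support.image (Finsupp.weight W),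
      eval z (weightedHomogeneousComponent W d f) * chi d l = 0 := by
    intro l
    have h0 := hf _ (hV l z hz)
    rw [MvPolynomial.eval_eq] at h0
    refine Eq.trans ?_ h0
    rw [← Finset.sum_fiberwise_of_maps_to (s := f.support)
      (t := f.support.image (Finsupp.weight W)) (g := Finsupp.weight W)
      (fun m hm => Finset.mem_image_of_mem _ hm)]
    refine Finset.sum_congr rfl fun d _ => ?_
    rw [hc, Finset.sum_mul]
    refine Finset.sum_congr rfl fun m hm => ?_
    rw [mono, (Finset.mem_filter.1 hm).2, mul_assoc]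
  have hli : LinearIndependent ℂ (fun d : ρ → ℤ => ((chi d : (ρ → ℂˣ) →* ℂ) : (ρ → ℂˣ) → ℂ)) :=
    (linearIndependent_monoidHom (ρ → ℂˣ) ℂ).comp chi chi_inj
  rw [linearIndependent_iff'] at hli
  by_cases hd0 : d0 ∈ f.support.image (Finsupp.weight W)
  · refine hli (f.support.image (Finsupp.weight W))
      (fun d => eval z (weightedHomogeneousComponent W d f)) ?_ d0 hd0
    funext l
    rw [Finset.sum_apply]
    exact hl l
  · rw [hc]
    rw [Finset.filter_eq_empty_iff.2, Finset.sum_empty]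
    intro m hm h
    exact hd0 (Finset.mem_image.2 ⟨m, hm, h⟩)

end Pool.Agent.KIR.S4b
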