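import Pool.Agent.KIR.S4b.Stm

/-!
# Project KIR, section S4b, piece TPV (helper12)
-/

set_option autoImplicit false

namespace Pool.Agent.KIR.S4b

open MvPolynomial Filter Topology Pool.Agent.KIR

theorem t_TPV : S_TPV := by
  classical
  intro n m c hc hd
  have hZ : ∀ (i : Fin n) (j : Fin m), (i, j) ∈ Zb c ↔ (j : ℕ) < pos (c i) := by
    intro i j
    simp [Zb]
  refine ⟨?_, ?_⟩
  · rintro z ⟨b, b', hb, -, hb', -, hz⟩
    refine ⟨z, ?_⟩
    funext s
    obtain ⟨i, j⟩ := s
    change z (i, j) = eval z (if (i, j) ∈ Zb c then 0 else X (i, j))
    split_ifs with h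
    · rw [map_zero, hz]
      have hj : (j : ℕ) < pos (c i) := (hZ i j).1 h
      change (b * Mc c * b') i j = 0
      rw [Matrix.mul_apply]
      refine Finset.sum_eq_zero fun l _ => ?_
      rw [Matrix.mul_apply, Finset.sum_mul]
      refine Finset.sum_eq_zero fun k _ => ?_
      by_cases hki : i < k
      · rw [hb i k hki, zero_mul, zero_mul]
      by_cases hkl : c k = some l
      · have hl : pos (c i) ≤ l := by
          rcases lt_or_eq_of_le (not_lt.1 hki) with h1 | h1
          · rcases hd k i h1 with h2 | h2
            · rw [hkl] at h2
              exact h2.le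
            · rw [h2.1] at hkl
              cases hkl
          · rw [← h1, hkl]
            exact le_refl _
        rw [hb' l j (by rw [Fin.lt_def]; omega), mul_zero]
      · have h3 : Mc c k l = 0 := if_neg hkl
        rw [h3, mul_zero, zero_mul]
    · rw [eval_X]
  · refine ⟨∏ i, (c i).elim 1 (fun j => X (i, j)), ?_, ?_⟩
    · rw [Finset.prod_ne_zero_iff]
      intro i _
      cases c i with
      | none => exact one_ne_zero
      | some j => exact X_ne_zero _
    · intro y hy
      rw [map_prod, Finset.prod_ne_zero_iff] at hy
      have hy' : ∀ (i : Fin n) (j : Fin m), c i = some j → y (i, j) ≠ 0 := by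
        intro i j hij
        have := hy i (Finset.mem_univ _)
        rw [hij] at this
        simpa using this
      obtain ⟨z, hz⟩ : ∃ z : Fin n × Fin m → ℂ,
        z = ev (fun s => if s ∈ Zb c then 0 else X s) y := ⟨_, rfl⟩
      have hz0 : ∀ (i : Fin n) (j : Fin m), (j:ℕ) < pos (c i) → z (i, j) = 0 := by
        intro i j h
        rw [hz]
        change eval y (if (i, j) ∈ Zb c then 0 else X (i, j)) = 0
        rw [if_pos ((hZ i j).2 h), map_zero]
      have hz1 : ∀ (i : Fin n) (j : Fin m), ¬ (j:ℕ) < pos (c i) → z (i, j) = y (i, j) := by
        intro i j h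
        rw [hz]
        change eval y (if (i, j) ∈ Zb c then 0 else X (i, j)) = _
        rw [if_neg (fun h' => h ((hZ i j).1 h')), eval_X]
      rw [← hz]
      have hch : ∀ l, (h : ∃ i, c i = some l) → c h.choose = some l := fun l h => h.choose_spec
      obtain ⟨B, hB⟩ : ∃ B : Matrix (Fin m) (Fin m) ℂ, ∀ l j, B l j =
          if h : ∃ i, c i = some l then z (h.choose, j) else if l = j then 1 else 0 :=
        ⟨fun l j => _, fun l j => rfl⟩
      refine ⟨1, B, ?_, ?_, ?_, ?_, ?_⟩
      · intro i j hij
        exact Matrix.one_apply_ne hij.ne
      · intro i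
        rw [Matrix.one_apply_eq]
        exact one_ne_zero
      · intro l j hjl
        rw [hB]
        split_ifs with h h2
        · apply hz0
          rw [hch l h]
          exact hjl
        · exact absurd h2 hjl.ne'
        · rfl
      · intro l
        rw [hB]
        split_ifs with h
        · rw [hz1]
          · exact hy' _ _ (hch l h)
          · rw [hch l h]
            exact lt_irrefl _
        · exact one_ne_zero
        · exact absurd rfl (by assumption)
      · rintro ⟨i, j⟩
        rw [Matrix.one_mul, Matrix.mul_apply]
        change z (i, j) = ∑ l, Mc c i l * B l j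
        rcases hci : c i with _ | l
        · rw [hz0 i j (by rw [hci]; exact j.2)]
          symm
          refine Finset.sum_eq_zero fun l _ => ?_
          have h3 : Mc c i l = 0 := if_neg (by rw [hci]; exact fun h => by cases h)
          rw [h3, zero_mul]
        · rw [Finset.sum_eq_single l]
          · have h3 : Mc c i l = 1 := if_pos hci
            rw [h3, one_mul]
            have hex : ∃ i, c i = some l := ⟨i, hci⟩
            rw [hB, dif_pos hex, hc _ _ _ (hch l hex) hci]
          · intro l' _ hl'
            have h3 : Mc c i l' = 0 := if_neg (by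
              rw [hci]
              intro h
              exact hl' (Option.some.inj h).symm)
            rw [h3, zero_mul]
          · intro h
            exact absurd (Finset.mem_univ _) h

end Pool.Agent.KIR.S4b
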