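import Pool.Agent.KIR.S4b.Stm

/-!
# KIR S4b (helper91): the two blocks of columns
-/

set_option autoImplicit false

namespace Pool.Agent.KIR.S4b.Blk

open MvPolynomial Pool.Agent.KIR

variable {n : ℕ}

/-- first block -/
def bl1 (z : Fin n × Fin (n + n) → ℂ) : Fin n × Fin n → ℂ :=
  fun s => z (s.1, Fin.castAdd n s.2)

/-- second block -/
def bl2 (z : Fin n × Fin (n + n) → ℂ) : Fin n × Fin n → ℂ :=
  fun s => z (s.1, Fin.natAdd n s.2)

/-- the point with given blocks -/
def join (z z' : Fin n × Fin n → ℂ) : Fin n × Fin (n + n) → ℂ :=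
  fun s => Fin.addCases (fun j => z (s.1, j)) (fun j => z' (s.1, j)) s.2

theorem bl1_join (z z' : Fin n × Fin n → ℂ) : bl1 (join z z') = z := by
  funext s
  simp [bl1, join]

theorem bl2_join (z z' : Fin n × Fin n → ℂ) : bl2 (join z z') = z' := by
  funext s
  show Fin.addCases (motive := fun _ => ℂ) (fun j => z (s.1, j)) (fun j => z' (s.1, j))
    (Fin.natAdd n s.2) = z' s
  rw [Fin.addCases_right]

theorem ext2 {z z' : Fin n × Fin (n + n) → ℂ} (h1 : bl1 z = bl1 z') (h2 : bl2 z = bl2 z') :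
    z = z' := by
  funext s
  obtain ⟨i, x⟩ := s
  induction x using Fin.addCases with
  | left j => exact congrFun h1 (i, j)
  | right j => exact congrFun h2 (i, j)

theorem mem_two {V V' : Set (Fin n × Fin n → ℂ)} {z : Fin n × Fin (n + n) → ℂ} :
    z ∈ Two V V' ↔ bl1 z ∈ V ∧ bl2 z ∈ V' := Iff.rfl

theorem bl1_rgC (a b : Fin n) (t : ℂ) (z : Fin n × Fin (n + n) → ℂ) :
    bl1 (act (rgC a b) t z) = act (rg a b) t (bl1 z) := by
  funext s
  have h : ((Fin.castAdd n s.2 : Fin (n + n)) : ℕ) < n := by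
    rw [Fin.val_castAdd]
    exact s.2.2
  by_cases ha : s.1 = a
  · simp [bl1, act, rgC, rg, ha]
  · simp [bl1, act, rgC, rg, ha]

theorem bl2_rgC (a b : Fin n) (t : ℂ) (z : Fin n × Fin (n + n) → ℂ) :
    bl2 (act (rgC a b) t z) = bl2 z := by
  funext s
  simp [bl2, act, rgC]

theorem bl1_rgA (a b : Fin n) (t : ℂ) (z : Fin n × Fin (n + n) → ℂ) :
    bl1 (act (rgA a b) t z) = bl1 z := by
  funext s
  simp [bl1, act, rgA]

theorem bl2_rgA (a b : Fin n) (t : ℂ) (z : Fin n × Fin (n + n) → ℂ) :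
    bl2 (act (rgA a b) t z) = act (rg a b) t (bl2 z) := by
  funext s
  by_cases ha : s.1 = a
  · simp [bl2, act, rgA, rg, ha]
  · simp [bl2, act, rgA, rg, ha]

theorem bl1_rg (a b : Fin n) (t : ℂ) (z : Fin n × Fin (n + n) → ℂ) :
    bl1 (act (rg a b) t z) = act (rg a b) t (bl1 z) := by
  funext s
  by_cases ha : s.1 = a
  · simp [bl1, act, rg, ha]
  · simp [bl1, act, rg, ha]

theorem bl2_rg (a b : Fin n) (t : ℂ) (z : Fin n × Fin (n + n) → ℂ) :
    bl2 (act (rg a b) t z) = act (rg a b) t (bl2 z) := by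
  funext s
  by_cases ha : s.1 = a
  · simp [bl2, act, rg, ha]
  · simp [bl2, act, rg, ha]

theorem ca_inj {a b : Fin n} : (Fin.castAdd n a : Fin (n + n)) = Fin.castAdd n b ↔ a = b :=
  (Fin.castAdd_injective n n).eq_iff

theorem na_inj {a b : Fin n} : (Fin.natAdd n a : Fin (n + n)) = Fin.natAdd n b ↔ a = b :=
  (Fin.natAdd_injective n n).eq_iff

theorem ca_ne {a b : Fin n} : (Fin.castAdd n a : Fin (n + n)) ≠ Fin.natAdd n b := by
  intro h
  have h1 := congrArg Fin.val h
  rw [Fin.val_castAdd, Fin.val_natAdd] at h1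
  have := a.2
  omega

theorem bl1_cgC (a b : Fin n) (t : ℂ) (z : Fin n × Fin (n + n) → ℂ) :
    bl1 (act (cg (Fin.castAdd n a) (Fin.castAdd n b)) t z) = act (cg a b) t (bl1 z) := by
  funext s
  by_cases ha : s.2 = b
  · simp only [bl1, act, cg, ca_inj, if_pos ha, Option.elim_some]
  · simp only [bl1, act, cg, ca_inj, if_neg ha, Option.elim_none]

theorem bl2_cgC (a b : Fin n) (t : ℂ) (z : Fin n × Fin (n + n) → ℂ) :
    bl2 (act (cg (Fin.castAdd n a) (Fin.castAdd n b)) t z) = bl2 z := by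
  funext s
  simp only [bl2, act, cg, if_neg (Ne.symm (ca_ne (a := b) (b := s.2))), Option.elim_none, mul_zero,
    add_zero]

theorem bl1_cgA (a b : Fin n) (t : ℂ) (z : Fin n × Fin (n + n) → ℂ) :
    bl1 (act (cg (Fin.natAdd n a) (Fin.natAdd n b)) t z) = bl1 z := by
  funext s
  simp only [bl1, act, cg, if_neg (ca_ne (a := s.2) (b := b)), Option.elim_none, mul_zero,
    add_zero]

theorem bl2_cgA (a b : Fin n) (t : ℂ) (z : Fin n × Fin (n + n) → ℂ) :
    bl2 (act (cg (Fin.natAdd n a) (Fin.natAdd n b)) t z) = act (cg a b) t (bl2 z) := by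
  funext s
  by_cases ha : s.2 = b
  · simp only [bl2, act, cg, na_inj, if_pos ha, Option.elim_some]
  · simp only [bl2, act, cg, na_inj, if_neg ha, Option.elim_none]

theorem mc_mem {m : ℕ} (c : Fin n → Option (Fin m)) : (fun s : Fin n × Fin m => Mc c s.1 s.2) ∈ Orb c := by
  refine ⟨1, 1, ?_, ?_, ?_, ?_, ?_⟩
  · intro a b hab
    exact Matrix.one_apply_ne hab.ne
  · intro a
    simp
  · intro a b hab
    exact Matrix.one_apply_ne hab.ne'
  · intro a
    simp
  · intro s
    simp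

end Pool.Agent.KIR.S4b.Blk
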