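import Pool.Agent.KIR.S4b.Stm

/-!
# PRD: products of parametrizations
-/

set_option autoImplicit false

namespace Pool.Agent.KIR.S4b

open MvPolynomial Filter Topology Pool.Agent.KIR

theorem two_left {n : ℕ} {τ τ' : Type} (φ : Fin n × Fin n → S τ) (φ' : Fin n × Fin n → S τ')
    (y : τ ⊕ τ' → ℂ) :
    (fun s : Fin n × Fin n => ev (two φ φ') y (s.1, Fin.castAdd n s.2)) =
      ev φ (y ∘ Sum.inl) := by
  funext s
  unfold ev two
  rw [Fin.addCases_left, eval_rename]

theorem two_right {n : ℕ} {τ τ' : Type} (φ : Fin n × Fin n → S τ) (φ' : Fin n × Fin n → S τ')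
    (y : τ ⊕ τ' → ℂ) :
    (fun s : Fin n × Fin n => ev (two φ φ') y (s.1, Fin.natAdd n s.2)) =
      ev φ' (y ∘ Sum.inr) := by
  funext s
  unfold ev two
  rw [Fin.addCases_right, eval_rename]

theorem t_PRD : S_PRD := by
  intro n τ τ' V V' φ φ' hV hV'
  obtain ⟨h1, h, hh, h2⟩ := hV
  obtain ⟨h1', h', hh', h2'⟩ := hV'
  refine ⟨?_, rename Sum.inl h * rename Sum.inr h', ?_, ?_⟩
  · intro z hz
    obtain ⟨y, hy⟩ := h1 _ hz.1
    obtain ⟨y', hy'⟩ := h1' _ hz.2
    refine ⟨Sum.elim y y', ?_⟩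
    have e1 := two_left φ φ' (Sum.elim y y')
    have e2 := two_right φ φ' (Sum.elim y y')
    rw [Sum.elim_comp_inl, ← hy] at e1
    rw [Sum.elim_comp_inr, ← hy'] at e2
    funext s
    obtain ⟨i, j⟩ := s
    refine Fin.addCases (fun j => ?_) (fun j => ?_) j
    · exact (congrFun e1 (i, j)).symm
    · exact (congrFun e2 (i, j)).symm
  · refine mul_ne_zero ?_ ?_
    · intro h0
      exact hh (rename_injective _ Sum.inl_injective (h0.trans (map_zero _).symm))
    · intro h0
      exact hh' (rename_injective _ Sum.inr_injective (h0.trans (map_zero _).symm))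
  · intro y hy
    rw [map_mul, eval_rename, eval_rename] at hy
    refine ⟨?_, ?_⟩
    · rw [two_left]
      exact h2 _ (left_ne_zero_of_mul hy)
    · rw [two_right]
      exact h2' _ (right_ne_zero_of_mul hy)

end Pool.Agent.KIR.S4b
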