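import Pool.Agent.KIR.S1a.Final
import Pool.Agent.KIR.S4b.PAR
import Pool.Agent.KIR.S4b.TOR
import Pool.Agent.KIR.S4b.STB
import Pool.Agent.KIR.S4b.PRD
import Pool.Agent.KIR.S4b.LIN
import Pool.Agent.KIR.S4b.HSV
import Pool.Agent.KIR.S4b.OPR
import Pool.Agent.KIR.S4b.OTO
import Pool.Agent.KIR.S4b.OST
import Pool.Agent.KIR.S4b.OPP
import Pool.Agent.KIR.S4b.OPU
import Pool.Agent.KIR.S4b.MNR
import Pool.Agent.KIR.S4b.TPV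
import Pool.Agent.KIR.S4b.CNT
import Pool.Agent.KIR.S4b.ORB
import Pool.Agent.KIR.S4b.STEP
import Pool.Agent.KIR.S4b.TOP
import Pool.Agent.KIR.S4b.ORB2
import Pool.Agent.KIR.S4b.STEP2
import Pool.Agent.KIR.S4b.TOP2

/-!
# PROJECT KIR, section S4b (helper67): assembly
-/

set_option autoImplicit false

namespace Pool.Agent.KIR

theorem u_ORB : S_ORB :=
  S4b.t_ORB S4b.t_PAR S4b.t_TOR S4b.t_STB S4b.t_OPR S4b.t_OTO S4b.t_OST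

theorem u_STEP : S_STEP :=
  S4b.t_STEP S4b.t_PAR S4b.t_STB S4b.t_OPP S4b.t_OPU S4b.t_MNR

theorem u_HSV : S4b.S_HSV := S4b.t_HSV s_VAR

theorem u_TOP : S_TOP :=
  S4b.t_TOP S4b.t_PAR S4b.t_LIN u_HSV S4b.t_TPV

theorem u_ORB2 : S_ORB2 :=
  S4b.t_ORB2 S4b.t_PAR S4b.t_TOR S4b.t_STB S4b.t_PRD S4b.t_OPR S4b.t_OTO S4b.t_OST

theorem u_STEP2 : S_STEP2 :=
  S4b.t_STEP2 S4b.t_PAR S4b.t_STB S4b.t_PRD S4b.t_OPR S4b.t_OPP S4b.t_OPU S4b.t_MNR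

theorem u_TOP2 : S_TOP2 :=
  S4b.t_TOP2 S4b.t_PAR S4b.t_PRD S4b.t_LIN u_HSV S4b.t_TPV S4b.t_CNT

end Pool.Agent.KIR
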