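import Pool.Agent.KIR.S1a.Stm

/-!
# PROJECT KIR, section S4b (helper67): orbits of triangular groups

Final theorems: `S_ORB`, `S_STEP`, `S_TOP`, `S_ORB2`, `S_STEP2`, `S_TOP2` of `Pool/Agent/KIR/Defs.lean`.

Every piece: file `Pool/Agent/KIR/S4b/NAME.lean`, `import Pool.Agent.KIR.S4b.Stm`, namespace
`Pool.Agent.KIR.S4b`, theorem `t_NAME : S_NAME` (or `theorem t_NAME (h1 : S_X) ... : S_NAME` if the docstring
says uses S_X).  All pieces are independent.

Notation in the docstrings: `M_c = Mc c` (partial permutation matrix), `c' = c ∘ Equiv.swap i j`,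
`u(t) = 1 + t E_ij` (row `i` += `t` row `j`).
-/

set_option autoImplicit false

namespace Pool.Agent.KIR.S4b

open MvPolynomial Filter Topology Pool.Agent.KIR

/-! ## General definitions -/

/-- action of the one-parameter group on points -/
def act {σ : Type} (g : σ → Option σ) (t : ℂ) (z : σ → ℂ) : σ → ℂ :=
  fun s => z s + t * (g s).elim 0 z

/-- value of a family of polynomials at a point -/
noncomputable def ev {σ τ : Type} (φ : σ → S τ) (y : τ → ℂ) : σ → ℂ := fun s => eval y (φ s)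

/-- `V` is (generically) parametrized by `φ`: every point of `V` is a value of `φ`, and the generic
value of `φ` is in `V`. -/
def Par {σ τ : Type} (V : Set (σ → ℂ)) (φ : σ → S τ) : Prop :=
  (∀ z ∈ V, ∃ y, z = ev φ y) ∧ ∃ h : S τ, h ≠ 0 ∧ ∀ y, eval y h ≠ 0 → ev φ y ∈ V

/-- two blocks of columns (`Orb2 c c' = Two (Orb c) (Orb c')` by `rfl`) -/
def Two {n : ℕ} (V V' : Set (Fin n × Fin n → ℂ)) : Set (Fin n × Fin (n + n) → ℂ) :=
  {z | (fun s : Fin n × Fin n => z (s.1, Fin.castAdd n s.2)) ∈ V ∧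
    (fun s : Fin n × Fin n => z (s.1, Fin.natAdd n s.2)) ∈ V'}

theorem Orb2_eq {n : ℕ} (c c' : Fin n → Option (Fin n)) : Orb2 c c' = Two (Orb c) (Orb c') := rfl

/-- two blocks of polynomials -/
noncomputable def two {n : ℕ} {τ τ' : Type} (φ : Fin n × Fin n → S τ) (φ' : Fin n × Fin n → S τ') :
    Fin n × Fin (n + n) → S (τ ⊕ τ') :=
  fun s => Fin.addCases (fun j => rename Sum.inl (φ (s.1, j)))
    (fun j => rename Sum.inr (φ' (s.1, j))) s.2

/-- lower triangular matrix of indeterminates -/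
noncomputable def Lw (n m : ℕ) : Matrix (Fin n) (Fin n) (S ((Fin n × Fin n) ⊕ (Fin m × Fin m))) :=
  fun a b => if a < b then 0 else X (Sum.inl (a, b))

/-- lower triangular matrix of indeterminates with the additional entry `(i, j)` -/
noncomputable def Lp (n m : ℕ) (i j : Fin n) :
    Matrix (Fin n) (Fin n) (S ((Fin n × Fin n) ⊕ (Fin m × Fin m))) :=
  fun a b => if a < b ∧ ¬ (a = i ∧ b = j) then 0 else X (Sum.inl (a, b))

/-- upper triangular matrix of indeterminates -/
noncomputable def Up (n m : ℕ) : Matrix (Fin m) (Fin m) (S ((Fin n × Fin n) ⊕ (Fin m × Fin m))) :=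
  fun a b => if b < a then 0 else X (Sum.inr (a, b))

/-- `M_c` with polynomial entries -/
noncomputable def McP {n m : ℕ} (τ : Type) (c : Fin n → Option (Fin m)) : Matrix (Fin n) (Fin m) (S τ) :=
  fun a l => if c a = some l then 1 else 0

/-- parametrization of an orbit -/
noncomputable def phB {n m : ℕ} (c : Fin n → Option (Fin m)) :
    Fin n × Fin m → S ((Fin n × Fin n) ⊕ (Fin m × Fin m)) :=
  fun s => (Lw n m * McP ((Fin n × Fin n) ⊕ (Fin m × Fin m)) c * Up n m) s.1 s.2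

/-- parametrization of an orbit of the minimal parabolic group -/
noncomputable def phP {n m : ℕ} (c : Fin n → Option (Fin m)) (i j : Fin n) :
    Fin n × Fin m → S ((Fin n × Fin n) ⊕ (Fin m × Fin m)) :=
  fun s => (Lp n m i j * McP ((Fin n × Fin n) ⊕ (Fin m × Fin m)) c * Up n m) s.1 s.2

/-- (proved) values of a product of matrices of polynomials -/
theorem ev_mat {n m : ℕ} {τ : Type} (A : Matrix (Fin n) (Fin n) (S τ)) (B : Matrix (Fin m) (Fin m) (S τ))
    (c : Fin n → Option (Fin m)) (y : τ → ℂ) :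
    ev (fun s : Fin n × Fin m => (A * McP τ c * B) s.1 s.2) y =
      fun s => (A.map (eval y) * Mc c * B.map (eval y)) s.1 s.2 := by
  funext s
  have h : ∀ a l, eval y (McP τ c a l) = Mc c a l := by
    intro a l
    unfold McP Mc
    split_ifs <;> simp
  unfold ev
  simp only [Matrix.mul_apply, Matrix.map_apply, map_sum, map_mul, h]

/-- (proved) values of the parametrization `phB` -/
theorem ev_phB {n m : ℕ} (c : Fin n → Option (Fin m)) (y : (Fin n × Fin n) ⊕ (Fin m × Fin m) → ℂ) :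
    ev (phB c) y = fun s =>
      ((Matrix.of (fun a b => if a < b then 0 else y (Sum.inl (a, b))) : Matrix (Fin n) (Fin n) ℂ) * Mc c *
        (Matrix.of (fun a b => if b < a then 0 else y (Sum.inr (a, b))) : Matrix (Fin m) (Fin m) ℂ)) s.1 s.2 := by
  have h := ev_mat (Lw n m) (Up n m) c y
  have h1 : (Lw n m).map (eval y) =
      (Matrix.of (fun a b => if a < b then 0 else y (Sum.inl (a, b))) : Matrix (Fin n) (Fin n) ℂ) := by
    ext a b
    simp only [Matrix.map_apply, Matrix.of_apply, Lw]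
    split_ifs <;> simp
  have h2 : (Up n m).map (eval y) =
      (Matrix.of (fun a b => if b < a then 0 else y (Sum.inr (a, b))) : Matrix (Fin m) (Fin m) ℂ) := by
    ext a b
    simp only [Matrix.map_apply, Matrix.of_apply, Up]
    split_ifs <;> simp
  rw [h1, h2] at h
  exact h

/-- (proved) values of the parametrization `phP` -/
theorem ev_phP {n m : ℕ} (c : Fin n → Option (Fin m)) (i j : Fin n)
    (y : (Fin n × Fin n) ⊕ (Fin m × Fin m) → ℂ) :
    ev (phP c i j) y = fun s =>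
      ((Matrix.of (fun a b => if a < b ∧ ¬ (a = i ∧ b = j) then 0 else y (Sum.inl (a, b))) :
          Matrix (Fin n) (Fin n) ℂ) * Mc c *
        (Matrix.of (fun a b => if b < a then 0 else y (Sum.inr (a, b))) : Matrix (Fin m) (Fin m) ℂ)) s.1 s.2 := by
  have h := ev_mat (Lp n m i j) (Up n m) c y
  have h1 : (Lp n m i j).map (eval y) =
      (Matrix.of (fun a b => if a < b ∧ ¬ (a = i ∧ b = j) then 0 else y (Sum.inl (a, b))) :
        Matrix (Fin n) (Fin n) ℂ) := by
    ext a b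
    simp only [Matrix.map_apply, Matrix.of_apply, Lp]
    split_ifs <;> simp
  have h2 : (Up n m).map (eval y) =
      (Matrix.of (fun a b => if b < a then 0 else y (Sum.inr (a, b))) : Matrix (Fin m) (Fin m) ℂ) := by
    ext a b
    simp only [Matrix.map_apply, Matrix.of_apply, Up]
    split_ifs <;> simp
  rw [h1, h2] at h
  exact h

/-! ## General pieces -/

/-- PAR (40 lines).
Proof. `eval (ev φ y) f = eval y (aeval φ f)` (`MvPolynomial.induction_on` or `eval`/`aeval` composition: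
`MvPolynomial.aeval_def`, `eval₂_comp_left`, `MvPolynomial.eval₂Hom`).  `⊇`: a point `z` of `V` is `ev φ y`.
`⊆`: if `f` vanishes on `V`, then `h * aeval φ f` vanishes at all `y` (where `h y ≠ 0` the point `ev φ y` is in
`V`), so it is `0` (`MvPolynomial.funext`), so `aeval φ f = 0`.  The kernel of a homomorphism to a domain is
prime (`RingHom.ker_isPrime`). -/
def S_PAR : Prop := ∀ (σ τ : Type) (V : Set (σ → ℂ)) (φ : σ → S τ), Par V φ →
  van V = RingHom.ker (aeval φ : S σ →ₐ[ℂ] S τ) ∧ (van V).IsPrime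

/-- TOR (70 lines).  A set stable under the torus has a graded ideal.
Proof. Let `f ∈ van V`, `z ∈ V`, `χ_d : (ρ → ℂˣ) →* ℂ`, `χ_d l = ∏ r, l r ^ d r`.  For every `l` the value of `f` at
`(∏ r, l r ^ W s r) * z s` is `∑_d χ_d(l) * f_d(z)`, `f_d = weightedHomogeneousComponent W d f`, a finite sum over
the image of `f.support` under `Finsupp.weight W` (expand `f` in monomials: `eval_eq'`/`f.sum`; the monomial `m` gets the
factor `∏ s, (∏ r, l r ^ W s r) ^ m s = χ_d(l)` with `d = Finsupp.weight W m`).  It is `0` for every `l`.  The characters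
`χ_d` are distinct (`d r ≠ d' r`: take `l = 2` at `r`, `1` elsewhere) so they are linearly independent
(`linearIndependent_monoidHom`), so `f_d(z) = 0`. -/
def S_TOR : Prop := ∀ (σ ρ : Type) [Fintype ρ] (W : σ → ρ → ℤ) (V : Set (σ → ℂ)),
  (∀ l : ρ → ℂˣ, ∀ z ∈ V, (fun s => ((∏ r, l r ^ W s r : ℂˣ) : ℂ) * z s) ∈ V) → TG W (van V)

/-- STB (60 lines).  Stability of vanishing ideals.
Proof. `eval (act g t z) f = eval z (sub g t f) = ∑_k t ^ k * eval z ((op g f).coeff k)` (algebra homomorphisms that agree on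
the variables: the map `f ↦ ((op g f).map (eval z)).eval t`).  A polynomial over `ℂ` which vanishes for all `t` is `0`
(`Polynomial.funext`).  So: for every `z`, `(∀ k, eval z ((op g f).coeff k) = 0) ↔ ∀ t, eval (act g t z) f = 0`.
`f ∈ PZ g P ↔ ∀ k, (op g f).coeff k ∈ P` (`Ideal.Quotient.eq_zero_iff_mem`, `Polynomial.ext_iff`,
`Polynomial.coeff_map`). -/
def S_STB : Prop := ∀ (σ : Type) (g : σ → Option σ) (V : Set (σ → ℂ)),
  ((∀ t, ∀ z ∈ V, act g t z ∈ V) → Stab g (van V)) ∧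
  (Stab g (van V) → ∀ t, ∀ z ∈ V, ∀ f ∈ van V, eval (act g t z) f = 0) ∧
  PZ g (van V) = van {z' | ∃ t, ∃ z ∈ V, z' = act g t z}

/-- PRD (60 lines).  Products of parametrizations.
Proof. `h = rename Sum.inl h1 * rename Sum.inr h2` (`rename` of an injective map is injective, `MvPolynomial.rename_injective`);
`eval y (rename f p) = eval (y ∘ f) p` (`eval_rename`); `Fin.addCases_left`, `Fin.addCases_right`; points: `Sum.elim y y'`. -/
def S_PRD : Prop := ∀ (n : ℕ) (τ τ' : Type) (V V' : Set (Fin n × Fin n → ℂ)) (φ : Fin n × Fin n → S τ)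
  (φ' : Fin n × Fin n → S τ'), Par V φ → Par V' φ' → Par (Two V V') (two φ φ')

/-- LIN (40 lines).  Linear ideals as kernels.
Proof. Let `I` be the span.  `I ≤ ker`: clear.  Let `θ = aeval (fun s => if s ∈ Z then 0 else X s) : S σ → S σ`.  Modulo `I` the
homomorphisms `mk ∘ θ` and `mk` agree on the variables, so `θ f - f ∈ I` for every `f`.  The given homomorphism is
`(rename e).comp θ`, and `rename e` is injective, so its kernel is that of `θ`, and `θ f = 0` implies `f ∈ I`. -/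
def S_LIN : Prop := ∀ (σ τ : Type) [DecidableEq σ] (Z : Finset σ) (e : σ → τ), Function.Injective e →
  RingHom.ker (aeval (fun s => if s ∈ Z then 0 else X (e s)) : S σ →ₐ[ℂ] S τ) =
    Ideal.span (X '' (Z : Set σ))

/-- HSV (70 lines), uses S1a.S_VAR.  The class of a linear ideal.
Proof. By S_VAR on `(0,1)`: `G |Z| w I q = (∏ s, w s) * ∏ s ∈ Zᶜ, (1 - q) / (1 - q ^ w s)` (`N = |Z| + |Zᶜ|`, `1 - q ≠ 0`,
`1 - q ^ w s ≠ 0`).  `(1 - q ^ w) / (1 - q) = ∑ i ∈ range w, q ^ i → w` for `q → 1` (`geom_sum`, continuity), so the limit is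
`(∏ s, w s) * ∏ s ∈ Zᶜ, 1 / w s = ∏ s ∈ Z, w s` (`Finset.prod_mul_prod_compl`).  `Tendsto.congr'` with `Ioo_mem_nhdsLT`;
`cl` by `Filter.Tendsto.limUnder_eq`. -/
def S_HSV : Prop := ∀ (σ : Type) [Fintype σ] [DecidableEq σ] (w : σ → ℕ), (∀ s, 0 < w s) →
  ∀ Z : Finset σ, Has Z.card w (Ideal.span (X '' (Z : Set σ)) : Ideal (S σ)) ∧
    cl Z.card w (Ideal.span (X '' (Z : Set σ)) : Ideal (S σ)) = ∏ s ∈ Z, (w s : ℝ)

/-! ## Pieces on one orbit -/

/-- OPR (40 lines).  Orbits are parametrized.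
Proof. `ev_phB`.  A point `b M_c b'` is the value at `y = Sum.elim (fun s => b s.1 s.2) (fun s => b' s.1 s.2)` (the triangular
`b`, `b'` do not change under the `if`).  `h = (∏ a, X (inl (a,a))) * ∏ a, X (inr (a,a))`. -/
def S_OPR : Prop := ∀ (n m : ℕ) (c : Fin n → Option (Fin m)), Par (Orb c) (phB c)

/-- OTO (30 lines).  Torus.  Proof. `(diagonal x * b) M_c (b' * diagonal y)`; `Matrix.diagonal_mul`, `Matrix.mul_diagonal`. -/
def S_OTO : Prop := ∀ (n m : ℕ) (c : Fin n → Option (Fin m)) (x : Fin n → ℂ) (y : Fin m → ℂ),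
  (∀ i, x i ≠ 0) → (∀ j, y j ≠ 0) → ∀ z ∈ Orb c, (fun s => x s.1 * y s.2 * z s) ∈ Orb c

/-- OST (70 lines).  Triangular operations.
Proof. Row operation (`a < b`): `act (rg b a) t z = (u b0) M_c b'` with `u b0` the matrix `b0` with row `b` += `t` row `a`
(`fun i k => b0 i k + if i = b then t * b0 a k else 0`): still lower triangular with the same diagonal (`b0 a b = 0`).
Column operation (`a < b`): column `b` += `t` column `a` of `b'`. -/
def S_OST : Prop := ∀ (n m : ℕ) (c : Fin n → Option (Fin m)) (t : ℂ), ∀ z ∈ Orb c,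
  (∀ a b : Fin n, a < b → act (rg b a) t z ∈ Orb c) ∧
  (∀ a b : Fin m, a < b → act (cg a b) t z ∈ Orb c)

/-- OPP (100 lines).  The orbit of `c'` is generic in the parabolic orbit of `c`.
Proof. `(M_c')_{a,l} = (M_c)_{swap a, l}`.
(1) `b M_c' b' = p M_c b'` with `p_{a,k} = b_{a, swap k}`, which satisfies the pattern: `p_{a,k} = 0` for `a < k`, `(a,k) ≠ (i,j)`
(`k ≠ i, j`: `b_{a,k} = 0`; `k = j`, `a < j`, `a ≠ i`: `b_{a,i} = 0`; `k = i`: `b_{a,j} = 0`).
(2) `h = X_ij (X_ii X_jj - X_ij X_ji) ∏_{r ≠ i,j} X_rr ∏ X'_ll` (`≠ 0`: value at the permutation matrix of `swap i j` and the unit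
matrix).  If `h(y) ≠ 0`, let `p`, `b'` be the matrices of `y`, `x = p_ii / p_ij` and
`b_{a,k} = p_{a, swap k} - x * (if k = j then p_{a,j} else 0)`.  `b` is lower triangular with non-zero diagonal (`a < k = j`:
`p_{a,i} - x p_{a,j} = 0`, also for `a = i`; diagonal: `b_ii = p_ij`, `b_jj = p_ji - x p_jj = -(det) / p_ij`, others `p_aa`).
`p M_c = b M_c' v` where `v = 1 + x E_{c_j, c_i}` (upper triangular as `c_j < c_i`) if `c_i ≠ none`, `v = 1` otherwise:
entry `(a,l)` of `p M_c`: `p_{a,k}` if `l = c_k`; entry of `b M_c' v`: `b_{a, swap k}` if `l = c_k`, plus, if `l = c_i`,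
`x b_{a, i} = x p_{a,j}` (as `c'_i = c_j`; PInj).  For `l = c_i` (`k = i`): `b_{a,j} + x p_{a,j} = p_{a,i}`. -/
def S_OPP : Prop := ∀ (n m : ℕ) (c : Fin n → Option (Fin m)) (i j : Fin n), PInj c →
  (j : ℕ) = i + 1 → pos (c j) < pos (c i) → Par (Orb (c ∘ Equiv.swap i j)) (phP c i j)

/-- OPU (90 lines).  The translates of the orbit of `c` are generic in the parabolic orbit of `c`.
Proof. (1) `act (rg i j) t (b M_c b') = p M_c b'` with `p_{a,k} = b_{a,k} + if a = i then t * b_{j,k} else 0`, zero for `a < k`,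
`(a,k) ≠ (i,j)` (`a = i`, `k ≠ j`: `k > j`).
(2) `h = X_jj (X_ii X_jj - X_ij X_ji) ∏_{r ≠ i,j} X_rr ∏ X'_ll` (`≠ 0`: value at the unit matrices).  If `h(y) ≠ 0`:
`t = p_ij / p_jj`, `b_{a,k} = p_{a,k} - if a = i then t * p_{j,k} else 0` is lower triangular with non-zero diagonal
(`b_ii = det / p_jj`), and `p M_c b' = act (rg i j) t (b M_c b')`. -/
def S_OPU : Prop := ∀ (n m : ℕ) (c : Fin n → Option (Fin m)) (i j : Fin n),
  (j : ℕ) = i + 1 → Par {z' | ∃ t, ∃ z ∈ Orb c, z' = act (rg i j) t z} (phP c i j)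

/-- MNR (100 lines).  A minor separates the two orbits.
Proof. Let `R = {k : k ≤ i, c'_k ≠ none, pos c'_k ≤ pos c_j}` (a Finset; `i ∈ R` as `c'_i = c_j`), `q_k` the column of `c'_k`,
`f = det (fun k l : R => X (k, q_l))`.  At `M_c'` the matrix is the unit matrix (PInj), so `f = 1`.
On `z = b M_c b'`: `z_{k, q_l} = ∑_a b_{k,a} (M_c b')_{a, q_l}`.  The terms `a ∉ R` vanish: if `a > i`, `b_{k,a} = 0` as `k ≤ i`; if
`a ≤ i`, then `a ≠ i`, so `c_a = c'_a`, and it is `none` or `c_a > c_j ≥ q_l`, so `(M_c b')_{a,q_l} = b'_{c_a, q_l} = 0`.  So the matrix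
is `A * B` over `R`, `A = b_{k,a}`, `B = (M_c b')_{a, q_l}`, and the row `i` of `B` is `b'_{c_i, q_l} = 0` as `c_i > c_j ≥ q_l` (or
`c_i = none`).  So `det = 0` (`Matrix.det_mul`, `Matrix.det_eq_zero_of_row_eq_zero`; `RingHom.map_det` for the evaluation). -/
def S_MNR : Prop := ∀ (n m : ℕ) (c : Fin n → Option (Fin m)) (i j : Fin n), PInj c →
  (j : ℕ) = i + 1 → pos (c j) < pos (c i) →
  ∃ f : S (Fin n × Fin m), f ∈ van (Orb c) ∧
    eval (fun s : Fin n × Fin m => Mc (c ∘ Equiv.swap i j) s.1 s.2) f ≠ 0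

/-- TPV (70 lines).  Orbits of decreasing `c`.
Proof. (1) `z = b M_c b'`, `(i,j) ∈ Zb c`, i.e. `j < pos (c i)`: `z_ij = ∑_{k ≤ i, c_k ≤ j} b_ik b'_{c_k,j}`, and `k ≤ i` implies
`pos (c i) ≤ pos (c k)` (Dec), so there is no such `k`; so `z = ev _ z`.
(2) `h = ∏ i, (c i).elim 1 (fun j => X (i,j))`.  If `h(y) ≠ 0` and `z` is the value: `b = 1` and `b'_{l,j} = z_{i,j}` if `c i = some l`
for some (unique) `i`, `b'_{l,j} = (if l = j then 1 else 0)` if there is none.  `b'` is upper triangular (`j < l = pos (c i)`), the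
diagonal is not zero, and `M_c b' = z` (if `c i = none`: the row `i` of `z` is zero because `j < m = pos none`). -/
def S_TPV : Prop := ∀ (n m : ℕ) (c : Fin n → Option (Fin m)), PInj c → Dec c →
  Par (Orb c) (fun s => if s ∈ Zb c then 0 else X s)

/-- CNT (40 lines).  Number of boxes. -/
def S_CNT : Prop := ∀ n : ℕ, (Finset.univ.filter (fun s : Fin n × Fin (n + n) =>
  ((s.2 : ℕ) < n ∧ (s.1 : ℕ) + s.2 + 1 < n) ∨ (n ≤ (s.2 : ℕ) ∧ (s.1 : ℕ) + s.2 + 1 < n + n))).card =
    n * (n - 1)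

/-! ## Assembly pieces

`A1 (ORB)`, 60 lines: `theorem t_ORB (hPAR : S_PAR) (hTOR : S_TOR) (hSTB : S_STB) (hOPR : S_OPR) (hOTO : S_OTO)
(hOST : S_OST) : S_ORB`.  Torus: `∏ r, l r ^ Wm s r = l (inl s.1) * (l (inr s.2))⁻¹`.

`A2 (STEP)`, 60 lines: `theorem t_STEP (hPAR : S_PAR) (hSTB : S_STB) (hOPP : S_OPP) (hOPU : S_OPU) (hMNR : S_MNR) : S_STEP`.
Both `van {u(t) z}` and `van (Orb c')` are the kernel of `aeval (phP c i j)`.  If `Stab (rg i j) (van (Orb c))` then `f` of S_MNR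
vanishes on all `act (rg i j) t z`, so it is in `PZ = van (Orb c')`, but it does not vanish at `M_c' ∈ Orb c'`.

`A3 (TOP)`, 40 lines: `theorem t_TOP (hPAR : S_PAR) (hLIN : S_LIN) (hHSV : S_HSV) (hTPV : S_TPV) : S_TOP`.
`(wt Wm p s : ℝ) = pair (Wm s) p` as this is positive.

`A4 (ORB2)`, 120 lines: `theorem t_ORB2 (hPAR : S_PAR) (hTOR : S_TOR) (hSTB : S_STB) (hPRD : S_PRD) (hOPR : S_OPR)
(hOTO : S_OTO) (hOST : S_OST) : S_ORB2`.  `act (rgC b a) t` is `act (rg b a) t` on the first block and the identity on the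
second, etc.; `rg b a` acts on both; `cg (castAdd n a) (castAdd n b)` is `cg a b` on the first block.

`A5 (STEP2)`, 120 lines: `theorem t_STEP2 (hPAR : S_PAR) (hSTB : S_STB) (hPRD : S_PRD) (hOPR : S_OPR) (hOPP : S_OPP)
(hOPU : S_OPU) (hMNR : S_MNR) : S_STEP2`.  `{act (rgC i j) t z : z ∈ Two V V'} = Two {act (rg i j) t z : z ∈ V} V'`; not stable: the
polynomial `rename (fun s => (s.1, castAdd n s.2)) f`.

`A6 (TOP2)`, 80 lines: `theorem t_TOP2 (hPAR : S_PAR) (hPRD : S_PRD) (hLIN : S_LIN) (hHSV : S_HSV) (hTPV : S_TPV)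
(hCNT : S_CNT) : S_TOP2`.  `two (if s ∈ Zb c ..) (if s ∈ Zb c ..) = fun s => if s ∈ Z then 0 else X (e s)`,
`e s = Fin.addCases (fun j => inl (s.1, j)) (fun j => inr (s.1, j)) s.2` injective.
-/

end Pool.Agent.KIR.S4b
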